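import Mathlib

/-!
# Biclique partitions from an independent set and two vertices with the same neighbours on it
-/

set_option autoImplicit false

namespace Pool.Agent.N414.BP

open Finset

/-- `A i`, `B i` (`i < k`) is a biclique partition of `G`. -/
def BicPart {n : ℕ} (G : SimpleGraph (Fin n)) (k : ℕ) : Prop :=
  ∃ A B : Fin k → Finset (Fin n),
    (∀ i, Disjoint (A i) (B i)) ∧
    ∀ u v : Fin n,
      (G.Adj u v → ∃! i, (u ∈ A i ∧ v ∈ B i) ∨ (v ∈ A i ∧ u ∈ B i)) ∧
      (¬ G.Adj u v → ∀ i, ¬ (u ∈ A i ∧ v ∈ B i))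

/-- an independent set of size `k` and two non-adjacent vertices outside it with the same
neighbours in it -/
def Struct {n : ℕ} (G : SimpleGraph (Fin n)) (k : ℕ) : Prop :=
  ∃ (I : Finset (Fin n)) (u v : Fin n), I.card = k ∧ (∀ x ∈ I, ∀ y ∈ I, ¬ G.Adj x y) ∧
    u ∉ I ∧ v ∉ I ∧ u ≠ v ∧ ¬ G.Adj u v ∧ ∀ w ∈ I, (G.Adj w u ↔ G.Adj w v)

theorem bicPart_of_struct {n : ℕ} {G : SimpleGraph (Fin n)} {k : ℕ} (h : Struct G k) :
    k + 2 ≤ n ∧ BicPart G (n - k - 1) := by
  classical
  obtain ⟨I, u, v, hk, hI, hu, hv, huv, hnuv, hag⟩ := h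
  -- the remaining vertices
  set J : Finset (Fin n) := insert u (insert v I) with hJ
  have hJc : J.card = k + 2 := by
    rw [hJ, card_insert_of_notMem, card_insert_of_notMem hv, hk]
    rw [mem_insert, not_or]
    exact ⟨huv, hu⟩
  have hJn : k + 2 ≤ n := by
    have := card_le_univ J
    rw [hJc, Fintype.card_fin] at this
    exact this
  refine ⟨hJn, ?_⟩
  set W : Finset (Fin n) := univ \ J with hW
  have hWc : W.card = n - k - 2 := by
    rw [hW, card_sdiff_of_subset (subset_univ _), hJc, card_univ, Fintype.card_fin]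
    omega
  -- enumerate `W`
  have hm : n - k - 1 = W.card + 1 := by rw [hWc]; omega
  rw [hm]
  let e : Fin W.card ≃ W := W.equivFin.symm
  let idx : Fin n → ℕ := fun x => if hx : x ∈ W then (e.symm ⟨x, hx⟩ : Fin W.card).val else W.card
  have idx_e : ∀ i : Fin W.card, idx (e i).1 = i.val := by
    intro i
    simp only [idx, dif_pos (e i).2]
    simp
  have idx_lt : ∀ x, x ∈ W → idx x < W.card := by
    intro x hx
    simp only [idx, dif_pos hx]
    exact (e.symm ⟨x, hx⟩).2
  have e_idx : ∀ x (hx : x ∈ W) (i : Fin W.card), (e i).1 = x ↔ idx x = i.val := by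
    intro x hx i
    constructor
    · rintro rfl; exact idx_e i
    · intro h
      simp only [idx, dif_pos hx] at h
      have h2 : e.symm ⟨x, hx⟩ = i := Fin.ext h
      rw [← h2]; simp
  have idx_not : ∀ x, x ∉ W → idx x = W.card := by
    intro x hx; simp only [idx, dif_neg hx]
  let A : Fin (W.card + 1) → Finset (Fin n) := fun i =>
    if hi : i.val < W.card then {(e ⟨i.val, hi⟩).1} else {u, v}
  let B : Fin (W.card + 1) → Finset (Fin n) := fun i =>
    if hi : i.val < W.card then
      univ.filter (fun y => G.Adj (e ⟨i.val, hi⟩).1 y ∧ i.val < idx y)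
    else I.filter (fun y => G.Adj y u)
  have hA1 : ∀ i : Fin (W.card + 1), ∀ hi : i.val < W.card, A i = {(e ⟨i.val, hi⟩).1} :=
    fun i hi => by simp only [A, dif_pos hi]
  have hA2 : ∀ i : Fin (W.card + 1), ¬ i.val < W.card → A i = {u, v} :=
    fun i hi => by simp only [A, dif_neg hi]
  have hB1 : ∀ i : Fin (W.card + 1), ∀ hi : i.val < W.card,
      B i = univ.filter (fun y => G.Adj (e ⟨i.val, hi⟩).1 y ∧ i.val < idx y) :=
    fun i hi => by simp only [B, dif_pos hi]
  have hB2 : ∀ i : Fin (W.card + 1), ¬ i.val < W.card → B i = I.filter (fun y => G.Adj y u) :=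
    fun i hi => by simp only [B, dif_neg hi]
  have hmemJ : ∀ x, x ∉ W → x = u ∨ x = v ∨ x ∈ I := by
    intro x hx
    by_contra hcon
    push Not at hcon
    apply hx
    rw [hW, mem_sdiff]
    refine ⟨mem_univ _, ?_⟩
    rw [hJ, mem_insert, mem_insert, not_or, not_or]
    exact hcon
  have huW : u ∉ W := by rw [hW, mem_sdiff]; intro h; exact h.2 (by rw [hJ]; simp)
  have hvW : v ∉ W := by rw [hW, mem_sdiff]; intro h; exact h.2 (by rw [hJ]; simp)
  have hIW : ∀ x ∈ I, x ∉ W := by
    intro x hx h; rw [hW, mem_sdiff] at h; exact h.2 (by rw [hJ]; simp [hx])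
  -- membership in a star
  have star : ∀ (i : Fin (W.card + 1)) (hi : i.val < W.card) (x y : Fin n),
      (x ∈ A i ∧ y ∈ B i) ↔ (x ∈ W ∧ idx x = i.val ∧ G.Adj x y ∧ i.val < idx y) := by
    intro i hi x y
    rw [hA1 i hi, hB1 i hi, mem_singleton, mem_filter]
    constructor
    · rintro ⟨rfl, _, h1, h2⟩
      exact ⟨(e ⟨i.val, hi⟩).2, idx_e _, h1, h2⟩
    · rintro ⟨hx, h1, h2, h3⟩
      have : (e ⟨i.val, hi⟩).1 = x := (e_idx x hx ⟨i.val, hi⟩).2 h1
      rw [this]
      exact ⟨rfl, mem_univ _, h2, h3⟩
  have last : ∀ (i : Fin (W.card + 1)) (hi : ¬ i.val < W.card) (x y : Fin n),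
      (x ∈ A i ∧ y ∈ B i) ↔ ((x = u ∨ x = v) ∧ y ∈ I ∧ G.Adj y u) := by
    intro i hi x y
    rw [hA2 i hi, hB2 i hi, mem_filter, mem_insert, mem_singleton]
  refine ⟨A, B, ?_, ?_⟩
  · intro i
    by_cases hi : i.val < W.card
    · rw [Finset.disjoint_left]
      intro x hx hx'
      have := (star i hi x x).1 ⟨hx, hx'⟩
      exact G.loopless.irrefl x this.2.2.1
    · rw [Finset.disjoint_left]
      intro x hx hx'
      have h := (last i hi x x).1 ⟨hx, hx'⟩
      rcases h.1 with rfl | rfl
      · exact hu h.2.1
      · exact hv h.2.1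
  · intro x y
    constructor
    · intro hxy
      -- by symmetry we may order `x`, `y` by `idx`
      have key : ∀ x y : Fin n, G.Adj x y → idx x ≤ idx y →
          ∃! i, (x ∈ A i ∧ y ∈ B i) ∨ (y ∈ A i ∧ x ∈ B i) := by
        intro x y hxy hle
        by_cases hx : x ∈ W
        · have hlt : idx x < idx y := by
            by_cases hy : y ∈ W
            · rcases hle.lt_or_eq with h | h
              · exact h
              · exfalso
                have h1 := (e_idx x hx ⟨idx x, idx_lt x hx⟩).2 rfl
                have h2 := (e_idx y hy ⟨idx x, idx_lt x hx⟩).2 h.symm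
                rw [h1] at h2
                exact hxy.ne h2
            · rw [idx_not y hy]; exact idx_lt x hx
          have hxl := idx_lt x hx
          refine ⟨⟨idx x, by omega⟩, Or.inl ((star _ hxl x y).2 ⟨hx, rfl, hxy, hlt⟩), ?_⟩
          intro i hi
          by_cases hil : i.val < W.card
          · rcases hi with hi | hi
            · have := (star i hil x y).1 hi
              exact Fin.ext this.2.1.symm
            · have := (star i hil y x).1 hi
              omega
          · exfalso
            rcases hi with hi | hi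
            · have := (last i hil x y).1 hi
              rcases this.1 with rfl | rfl
              · exact huW hx
              · exact hvW hx
            · have := (last i hil y x).1 hi
              exact hIW x this.2.1 hx
        · have hxi := idx_not x hx
          have hy : y ∉ W := by
            intro hy
            have := idx_lt y hy
            omega
          have hyi := idx_not y hy
          have hi0 : ¬ (⟨W.card, by omega⟩ : Fin (W.card + 1)).val < W.card := lt_irrefl _
          have huniq : ∀ i : Fin (W.card + 1), ((x ∈ A i ∧ y ∈ B i) ∨ (y ∈ A i ∧ x ∈ B i)) →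
              i = ⟨W.card, by omega⟩ := by
            intro i hi
            by_cases hil : i.val < W.card
            · exfalso
              rcases hi with hi | hi
              · exact hx ((star i hil x y).1 hi).1
              · exact hy ((star i hil y x).1 hi).1
            · have := i.2
              exact Fin.ext (by simp only; omega)
          refine ⟨⟨W.card, by omega⟩, ?_, huniq⟩
          -- exactly one of `x`, `y` is in `I`
          rcases hmemJ x hx with rfl | rfl | hxI
          · rcases hmemJ y hy with rfl | rfl | hyI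
            · exact absurd rfl hxy.ne
            · exact absurd hxy hnuv
            · exact Or.inl ((last _ hi0 _ _).2 ⟨Or.inl rfl, hyI, hxy.symm⟩)
          · rcases hmemJ y hy with rfl | rfl | hyI
            · exact absurd hxy.symm hnuv
            · exact absurd rfl hxy.ne
            · exact Or.inl ((last _ hi0 _ _).2 ⟨Or.inr rfl, hyI, (hag y hyI).2 hxy.symm⟩)
          · rcases hmemJ y hy with rfl | rfl | hyI
            · exact Or.inr ((last _ hi0 _ _).2 ⟨Or.inl rfl, hxI, hxy⟩)
            · exact Or.inr ((last _ hi0 _ _).2 ⟨Or.inr rfl, hxI, (hag x hxI).2 hxy⟩)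
            · exact absurd hxy (hI x hxI y hyI)
      rcases le_total (idx x) (idx y) with h | h
      · exact key x y hxy h
      · obtain ⟨i, hi, hu'⟩ := key y x hxy.symm h
        exact ⟨i, hi.symm, fun j hj => hu' j hj.symm⟩
    · intro hxy i hi
      by_cases hil : i.val < W.card
      · exact hxy ((star i hil x y).1 hi).2.2.1
      · have h := (last i hil x y).1 hi
        rcases h.1 with rfl | rfl
        · exact hxy h.2.2.symm
        · exact hxy ((hag y h.2.1).1 h.2.2).symm

/-- The biclique partition number is smaller than `n - α`. -/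
theorem sInf_ne {n : ℕ} {G : SimpleGraph (Fin n)} {k : ℕ} (h : Struct G k)
    (hα : ∀ S : Finset (Fin n), (∀ x ∈ S, ∀ y ∈ S, ¬ G.Adj x y) → S.card ≤ k) :
    sInf {k : ℕ | BicPart G k} ≠ n - Gᶜ.cliqueNum := by
  obtain ⟨h1, h2⟩ := bicPart_of_struct h
  have h3 : sInf {k : ℕ | BicPart G k} ≤ n - k - 1 := Nat.sInf_le h2
  have h4 : Gᶜ.cliqueNum ≤ k := by
    obtain ⟨s, hs⟩ := Gᶜ.exists_isNClique_cliqueNum
    rw [← hs.card_eq]
    apply hα
    intro x hx y hy hxy
    have := hs.isClique hx hy hxy.ne
    rw [SimpleGraph.compl_adj] at this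
    exact this.2 hxy
  omega

end Pool.Agent.N414.BP
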