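import Mathlib
import Pool.Agent.R980.Indep
import Pool.Agent.N414.BP.Det

/-!
# Product structure: probabilities of the structures
-/

set_option autoImplicit false

namespace Pool.Agent.N414.BP

open Finset Pool.Agent.R980
open scoped Classical

/-- indicator -/
noncomputable def ind (P : Prop) : ℝ := if P then 1 else 0

lemma ind_nonneg (P : Prop) : 0 ≤ ind P := by unfold ind; split_ifs <;> norm_num

lemma ind_mul (P Q : Prop) : ind P * ind Q = ind (P ∧ Q) := by
  unfold ind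
  by_cases hP : P <;> by_cases hQ : Q <;> simp [hP, hQ]

lemma ind_congr {P Q : Prop} (h : P ↔ Q) : ind P = ind Q := by
  unfold ind; simp only [h]

/-! ### Cylinders -/

section cyl

variable {E : Type} [Fintype E] [DecidableEq E]

/-- the coordinates in `S` are all equal to `c` -/
theorem bex_cyl (p : ℝ) (S : Finset E) (c : Bool) :
    bex p (fun x : E → Bool => ∏ e ∈ S, ind (x e = c)) = (if c = true then p else 1 - p) ^ S.card := by
  have h : (fun x : E → Bool => ∏ e ∈ S, ind (x e = c)) = fun x => ∏ e : E,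
      (fun (e : E) (b : Bool) => if e ∈ S then ind (b = c) else 1) e (x e) := by
    funext x
    simp only
    rw [Finset.prod_ite_mem, univ_inter]
  rw [h, bex_prod p (fun (e : E) (b : Bool) => if e ∈ S then ind (b = c) else 1)]
  have h2 : ∀ e : E, (p * (if e ∈ S then ind (true = c) else 1) +
      (1 - p) * (if e ∈ S then ind (false = c) else 1))
      = if e ∈ S then (if c = true then p else 1 - p) else 1 := by
    intro e
    unfold ind
    cases c <;> by_cases he : e ∈ S <;> simp [he]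
  rw [prod_congr rfl fun e _ => h2 e, Finset.prod_ite_mem, univ_inter, prod_const]

theorem bex_eq2 (p : ℝ) {a b : E} (hab : a ≠ b) :
    bex p (fun x : E → Bool => ind (x a = x b)) = p ^ 2 + (1 - p) ^ 2 := by
  have h : (fun x : E → Bool => ind (x a = x b)) = fun x =>
      (∏ e ∈ ({a, b} : Finset E), ind (x e = true)) +
        (∏ e ∈ ({a, b} : Finset E), ind (x e = false)) := by
    funext x
    rw [prod_pair hab, prod_pair hab, ind_mul, ind_mul]
    unfold ind
    cases x a <;> cases x b <;> simp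
  rw [h, bex_add, bex_cyl, bex_cyl, card_pair hab]
  simp

theorem bex_eq3 (p : ℝ) {a b c : E} (hab : a ≠ b) (hac : a ≠ c) (hbc : b ≠ c) :
    bex p (fun x : E → Bool => ind (x a = x b) * ind (x a = x c)) = p ^ 3 + (1 - p) ^ 3 := by
  have hc : ({a, b, c} : Finset E).card = 3 := by
    rw [card_insert_of_notMem, card_pair hbc]
    simp [hab, hac]
  have h : (fun x : E → Bool => ind (x a = x b) * ind (x a = x c)) = fun x =>
      (∏ e ∈ ({a, b, c} : Finset E), ind (x e = true)) +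
        (∏ e ∈ ({a, b, c} : Finset E), ind (x e = false)) := by
    funext x
    have h1 : a ∉ ({b, c} : Finset E) := by simp [hab, hac]
    rw [prod_insert h1, prod_insert h1, prod_pair hbc, prod_pair hbc]
    unfold ind
    cases x a <;> cases x b <;> cases x c <;> simp
  rw [h, bex_add, bex_cyl, bex_cyl, hc]
  simp

theorem bex_eq4 (p : ℝ) {a b c d : E} (hab : a ≠ b) (hcd : c ≠ d) (hac : a ≠ c) (had : a ≠ d)
    (hbc : b ≠ c) (hbd : b ≠ d) :
    bex p (fun x : E → Bool => ind (x a = x b) * ind (x c = x d)) = (p ^ 2 + (1 - p) ^ 2) ^ 2 := by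
  rw [bex_block p (fun e => e = a ∨ e = b) (fun x => ind (x a = x b)) (fun x => ind (x c = x d)),
    bex_eq2 p hab, bex_eq2 p hcd]
  · ring
  · intro x y h
    rw [h a (Or.inl rfl), h b (Or.inr rfl)]
  · intro x y h
    rw [h c (by rintro (rfl | rfl); exact hac rfl; exact hbc rfl),
      h d (by rintro (rfl | rfl); exact had rfl; exact hbd rfl)]

end cyl

/-! ### Cauchy–Schwarz -/

theorem second_moment {E : Type} [Fintype E] [DecidableEq E] {p : ℝ} (h0 : 0 ≤ p) (h1 : p ≤ 1)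
    (X : (E → Bool) → ℝ) :
    (bex p X) ^ 2 ≤ bex p (fun x => ind (X x ≠ 0)) * bex p (fun x => X x * X x) := by
  unfold bex
  refine Finset.sum_sq_le_sum_mul_sum_of_sq_le_mul _ (fun x _ => ?_) (fun x _ => ?_) (fun x _ => le_of_eq ?_)
  · exact mul_nonneg (bw_nonneg h0 h1 x) (ind_nonneg _)
  · exact mul_nonneg (bw_nonneg h0 h1 x) (mul_self_nonneg _)
  · unfold ind
    by_cases h : X x = 0
    · simp [h]
    · simp only [ne_eq, h, not_false_eq_true, if_true]; ring

/-! ### The structures -/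

variable {n : ℕ}

/-- an index `(I, u, v)` -/
abbrev Idx (n : ℕ) : Type := Finset (Fin n) × Fin n × Fin n

/-- the pairs inside `I` -/
noncomputable def pairs (I : Finset (Fin n)) : Finset (Edge n) :=
  univ.filter fun e => ∀ z ∈ e.1, z ∈ I

lemma card_pairs (I : Finset (Fin n)) : (pairs I).card = I.card.choose 2 := by
  rw [← Sym2.card_image_offDiag]
  refine card_bij (fun e _ => e.1) ?_ ?_ ?_
  · intro e he
    unfold pairs at he
    rw [mem_filter] at he
    obtain ⟨e, hd⟩ := e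
    induction e with
    | _ a b =>
      rw [mem_image]
      refine ⟨(a, b), ?_, rfl⟩
      rw [mem_offDiag]
      refine ⟨he.2 a (by simp), he.2 b (by simp), ?_⟩
      intro hab
      exact hd (by rw [Sym2.mk_isDiag_iff]; exact hab)
  · intro a _ b _ h; exact Subtype.ext h
  · intro e he
    rw [mem_image] at he
    obtain ⟨⟨a, b⟩, hab, rfl⟩ := he
    rw [mem_offDiag] at hab
    have hd : ¬ (s(a, b) : Sym2 (Fin n)).IsDiag := by
      rw [Sym2.mk_isDiag_iff]; exact hab.2.2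
    refine ⟨⟨s(a, b), hd⟩, ?_, rfl⟩
    unfold pairs
    rw [mem_filter]
    refine ⟨mem_univ _, ?_⟩
    intro z hz
    rw [Sym2.mem_iff] at hz
    rcases hz with rfl | rfl
    · exact hab.1
    · exact hab.2.1

lemma pairs_inter (I J : Finset (Fin n)) : pairs I ∩ pairs J = pairs (I ∩ J) := by
  ext e
  unfold pairs
  simp only [mem_inter, mem_filter, mem_univ, true_and]
  constructor
  · rintro ⟨h1, h2⟩ z hz; exact ⟨h1 z hz, h2 z hz⟩
  · intro h; exact ⟨fun z hz => (h z hz).1, fun z hz => (h z hz).2⟩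

/-- the pair `uv` -/
noncomputable def uvE (u v : Fin n) : Finset (Edge n) := univ.filter fun e => e.1 = s(u, v)

lemma card_uvE {u v : Fin n} (h : u ≠ v) : (uvE u v).card = 1 := by
  have hd : ¬ (s(u, v) : Sym2 (Fin n)).IsDiag := by rw [Sym2.mk_isDiag_iff]; exact h
  rw [card_eq_one]
  refine ⟨⟨s(u, v), hd⟩, ?_⟩
  ext e
  unfold uvE
  simp only [mem_filter, mem_univ, true_and, mem_singleton]
  exact ⟨fun h => Subtype.ext h, fun h => by rw [h]⟩

/-- the required non-edges -/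
noncomputable def FF (σ : Idx n) : Finset (Edge n) := pairs σ.1 ∪ uvE σ.2.1 σ.2.2

/-- agreement at `w` -/
noncomputable def gV (σ : Idx n) (w : Fin n) (x : Edge n → Bool) : ℝ :=
  if w ∈ σ.1 then ind ((ofBool x).Adj w σ.2.1 ↔ (ofBool x).Adj w σ.2.2) else 1

/-- the indicator of the structure -/
noncomputable def T (σ : Idx n) (x : Edge n → Bool) : ℝ :=
  (∏ e ∈ FF σ, ind (x e = false)) * ∏ w ∈ σ.1, gV σ w x

/-- the admissible indices -/
structure Ok (A B1 B2 : Finset (Fin n)) (σ : Idx n) : Prop where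
  sub : σ.1 ⊆ A
  m1 : σ.2.1 ∈ B1
  m2 : σ.2.2 ∈ B2

/-- the three disjoint sets -/
structure Parts (A B1 B2 : Finset (Fin n)) : Prop where
  d1 : Disjoint A B1
  d2 : Disjoint A B2
  d3 : Disjoint B1 B2

lemma prod_ind_union {E : Type} [DecidableEq E] (S S' : Finset E) (x : E → Bool) :
    (∏ e ∈ S, ind (x e = false)) * (∏ e ∈ S', ind (x e = false)) =
      ∏ e ∈ S ∪ S', ind (x e = false) := by
  by_cases h : ∃ e ∈ S ∪ S', x e ≠ false
  · obtain ⟨e, he, hx⟩ := h
    rw [prod_eq_zero he (by unfold ind; rw [if_neg hx])]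
    rcases mem_union.1 he with h | h
    · rw [prod_eq_zero h (by unfold ind; rw [if_neg hx]), zero_mul]
    · rw [prod_eq_zero (s := S') h (by unfold ind; rw [if_neg hx]), mul_zero]
  · push Not at h
    rw [prod_eq_one (s := S ∪ S') (fun e he => by unfold ind; rw [if_pos (h e he)]),
      prod_eq_one (s := S) (fun e he => by unfold ind; rw [if_pos (h e (mem_union_left _ he))]),
      prod_eq_one (s := S') (fun e he => by unfold ind; rw [if_pos (h e (mem_union_right _ he))])]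
    norm_num

/-- the block of `w` -/
def blk (A : Finset (Fin n)) : Edge n ⊕ Fin n → Set (Edge n)
  | Sum.inl e => {e}
  | Sum.inr w => {e | ∃ z, z ∉ A ∧ e.1 = s(w, z)}

lemma gV_dep (A : Finset (Fin n)) {σ : Idx n} (h1 : σ.2.1 ∉ A) (h2 : σ.2.2 ∉ A) (w : Fin n)
    (x y : Edge n → Bool) (h : ∀ e ∈ blk A (Sum.inr w), x e = y e) : gV σ w x = gV σ w y := by
  have key : ∀ z, z ∉ A → ((ofBool x).Adj w z ↔ (ofBool y).Adj w z) := by
    intro z hz
    rw [adj_ofBool, adj_ofBool]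
    refine exists_congr fun hd => ?_
    rw [h ⟨s(w, z), hd⟩ ⟨z, hz, rfl⟩]
  unfold gV
  by_cases hw : w ∈ σ.1
  · rw [if_pos hw, if_pos hw, ind_congr (iff_congr (key _ h1) (key _ h2))]
  · rw [if_neg hw, if_neg hw]

lemma uv_ne {A B1 B2 : Finset (Fin n)} (hP : Parts A B1 B2) {σ : Idx n} (h : Ok A B1 B2 σ) :
    σ.2.1 ≠ σ.2.2 := fun h' => Finset.disjoint_left.1 hP.d3 h.m1 (h' ▸ h.m2)

lemma FF_not_blk {A B1 B2 : Finset (Fin n)} (hP : Parts A B1 B2) {σ : Idx n} (h : Ok A B1 B2 σ)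
    {e : Edge n} (he : e ∈ FF σ) {w : Fin n} (hw : w ∈ A) : e ∉ blk A (Sum.inr w) := by
  rintro ⟨z, hz, hez⟩
  unfold FF at he
  rw [mem_union] at he
  rcases he with he | he
  · unfold pairs at he
    rw [mem_filter] at he
    exact hz (h.sub (he.2 z (by rw [hez]; simp)))
  · unfold uvE at he
    rw [mem_filter] at he
    have h1 : w ∈ (s(σ.2.1, σ.2.2) : Sym2 (Fin n)) := by rw [← he.2, hez]; simp
    rw [Sym2.mem_iff] at h1
    rcases h1 with h1 | h1
    · exact Finset.disjoint_left.1 hP.d1 hw (h1 ▸ h.m1)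
    · exact Finset.disjoint_left.1 hP.d2 hw (h1 ▸ h.m2)

theorem bex_TT (p : ℝ) {A B1 B2 : Finset (Fin n)} (hP : Parts A B1 B2) {σ τ : Idx n}
    (hσ : Ok A B1 B2 σ) (hτ : Ok A B1 B2 τ) :
    bex p (fun x => T σ x * T τ x) = (1 - p) ^ (FF σ ∪ FF τ).card *
      ∏ w ∈ σ.1 ∪ τ.1, bex p (fun x => gV σ w x * gV τ w x) := by
  have hu1 : σ.2.1 ∉ A := fun h => Finset.disjoint_left.1 hP.d1 h hσ.m1
  have hv1 : σ.2.2 ∉ A := fun h => Finset.disjoint_left.1 hP.d2 h hσ.m2
  have hu2 : τ.2.1 ∉ A := fun h => Finset.disjoint_left.1 hP.d1 h hτ.m1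
  have hv2 : τ.2.2 ∉ A := fun h => Finset.disjoint_left.1 hP.d2 h hτ.m2
  have hgV : ∀ x, (∏ w ∈ σ.1, gV σ w x) * (∏ w ∈ τ.1, gV τ w x) =
      ∏ w ∈ σ.1 ∪ τ.1, (gV σ w x * gV τ w x) := by
    intro x
    rw [prod_mul_distrib]
    congr 1
    · refine prod_subset subset_union_left fun w _ hw => ?_
      unfold gV; rw [if_neg hw]
    · refine prod_subset subset_union_right fun w _ hw => ?_
      unfold gV; rw [if_neg hw]
  let H : Edge n ⊕ Fin n → (Edge n → Bool) → ℝ := fun i x =>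
    Sum.elim (fun e => ind (x e = false)) (fun w => gV σ w x * gV τ w x) i
  let W : Finset (Edge n ⊕ Fin n) := (FF σ ∪ FF τ).disjSum (σ.1 ∪ τ.1)
  have hT : (fun x => T σ x * T τ x) = fun x => ∏ i ∈ W, H i x := by
    funext x
    have h1 : T σ x * T τ x = ((∏ e ∈ FF σ, ind (x e = false)) * (∏ e ∈ FF τ, ind (x e = false))) *
        ((∏ w ∈ σ.1, gV σ w x) * (∏ w ∈ τ.1, gV τ w x)) := by
      unfold T; ring
    rw [h1, prod_ind_union, hgV, prod_disjSum]
    rfl
  have hW : ∏ i ∈ W, bex p (H i) = (∏ e ∈ FF σ ∪ FF τ, bex p (fun x => ind (x e = false))) *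
      ∏ w ∈ σ.1 ∪ τ.1, bex p (fun x => gV σ w x * gV τ w x) := by
    rw [prod_disjSum]
    rfl
  have hE : ∀ e : Edge n, bex p (fun x => ind (x e = false)) = 1 - p := by
    intro e
    have := bex_cyl p ({e} : Finset (Edge n)) false
    simpa using this
  rw [hT, bex_prod_blocks p W (blk A) H ?_ ?_, hW, prod_congr rfl (fun e _ => hE e), prod_const]
  · rintro (e | w) _ x y hxy
    · show ind (x e = false) = ind (y e = false)
      rw [hxy e rfl]
    · show gV σ w x * gV τ w x = gV σ w y * gV τ w y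
      rw [gV_dep A hu1 hv1 w x y hxy, gV_dep A hu2 hv2 w x y hxy]
  · have hmem : ∀ w, Sum.inr w ∈ W → w ∈ A := by
      intro w hw
      have : w ∈ σ.1 ∪ τ.1 := by simpa [W] using hw
      rcases mem_union.1 this with h | h
      · exact hσ.sub h
      · exact hτ.sub h
    have hmemE : ∀ e, Sum.inl e ∈ W → ∀ w ∈ A, e ∉ blk A (Sum.inr w) := by
      intro e he w hw
      have : e ∈ FF σ ∪ FF τ := by simpa [W] using he
      rcases mem_union.1 this with h | h
      · exact FF_not_blk hP hσ h hw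
      · exact FF_not_blk hP hτ h hw
    rintro (e | w) hi (e' | w') hj hij
    · rw [Set.disjoint_left]
      rintro f hf hf'
      apply hij
      have h1 : f = e := hf
      have h2 : f = e' := hf'
      rw [← h1, ← h2]
    · rw [Set.disjoint_left]
      rintro f hf hf'
      have h1 : f = e := hf
      exact hmemE e hi w' (hmem w' hj) (h1 ▸ hf')
    · rw [Set.disjoint_left]
      rintro f hf hf'
      have h1 : f = e' := hf'
      exact hmemE e' hj w (hmem w hi) (h1 ▸ hf)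
    · rw [Set.disjoint_left]
      rintro f ⟨z, hz, h1⟩ ⟨z', hz', h2⟩
      rw [h1, Sym2.eq_iff] at h2
      rcases h2 with ⟨h2, _⟩ | ⟨h2, _⟩
      · exact hij (by rw [h2])
      · exact hz' (h2 ▸ hmem w hi)

/-! ### The one-vertex factors -/

lemma adj_iff (x : Edge n → Bool) {w z : Fin n} (h : ¬ (s(w, z) : Sym2 (Fin n)).IsDiag) :
    (ofBool x).Adj w z ↔ x ⟨s(w, z), h⟩ = true := by
  rw [adj_ofBool]
  exact ⟨fun ⟨_, h⟩ => h, fun h' => ⟨h, h'⟩⟩

lemma nd {w z : Fin n} (h : w ≠ z) : ¬ (s(w, z) : Sym2 (Fin n)).IsDiag := by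
  rw [Sym2.mk_isDiag_iff]; exact h

lemma ind_adj (x : Edge n → Bool) {w u v : Fin n} (hu : w ≠ u) (hv : w ≠ v) :
    ind ((ofBool x).Adj w u ↔ (ofBool x).Adj w v) =
      ind (x ⟨s(w, u), nd hu⟩ = x ⟨s(w, v), nd hv⟩) := by
  apply ind_congr
  rw [adj_iff x (nd hu), adj_iff x (nd hv)]
  cases x ⟨s(w, u), nd hu⟩ <;> cases x ⟨s(w, v), nd hv⟩ <;> simp

lemma edge_ne {w u v : Fin n} (hu : w ≠ u) (hv : w ≠ v) (huv : u ≠ v) :
    (⟨s(w, u), nd hu⟩ : Edge n) ≠ ⟨s(w, v), nd hv⟩ := by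
  intro h
  have := congrArg Subtype.val h
  simp only at this
  rw [Sym2.eq_iff] at this
  rcases this with ⟨_, h⟩ | ⟨h, _⟩
  · exact huv h
  · exact hv h

/-- the factor at a vertex that is in both sets -/
noncomputable def rr (p : ℝ) (u v u' v' : Fin n) : ℝ :=
  if u = u' then (if v = v' then p ^ 2 + (1 - p) ^ 2 else p ^ 3 + (1 - p) ^ 3)
  else (if v = v' then p ^ 3 + (1 - p) ^ 3 else (p ^ 2 + (1 - p) ^ 2) ^ 2)

lemma ind_sq (P : Prop) : ind P * ind P = ind P := by
  rw [ind_mul]; exact ind_congr (and_self_iff)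

theorem factor_both (p : ℝ) {A B1 B2 : Finset (Fin n)} (hP : Parts A B1 B2) {σ τ : Idx n}
    (hσ : Ok A B1 B2 σ) (hτ : Ok A B1 B2 τ) {w : Fin n} (h1 : w ∈ σ.1) (h2 : w ∈ τ.1) :
    bex p (fun x => gV σ w x * gV τ w x) = rr p σ.2.1 σ.2.2 τ.2.1 τ.2.2 := by
  obtain ⟨I, u, v⟩ := σ
  obtain ⟨J, u', v'⟩ := τ
  have hwA := hσ.sub h1
  obtain ⟨_, hu, hv⟩ := hσ
  obtain ⟨_, hu', hv'⟩ := hτ
  simp only at h1 h2 hu hv hu' hv' hwA ⊢
  have e1 : w ≠ u := fun h => Finset.disjoint_left.1 hP.d1 hwA (h ▸ hu)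
  have e2 : w ≠ v := fun h => Finset.disjoint_left.1 hP.d2 hwA (h ▸ hv)
  have e3 : w ≠ u' := fun h => Finset.disjoint_left.1 hP.d1 hwA (h ▸ hu')
  have e4 : w ≠ v' := fun h => Finset.disjoint_left.1 hP.d2 hwA (h ▸ hv')
  have d1 : u ≠ v := fun h => Finset.disjoint_left.1 hP.d3 hu (h ▸ hv)
  have d2 : u ≠ v' := fun h => Finset.disjoint_left.1 hP.d3 hu (h ▸ hv')
  have d3 : u' ≠ v := fun h => Finset.disjoint_left.1 hP.d3 hu' (h ▸ hv)
  have d4 : u' ≠ v' := fun h => Finset.disjoint_left.1 hP.d3 hu' (h ▸ hv')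
  have hg : (fun x => gV (I, u, v) w x * gV (J, u', v') w x) = fun x =>
      ind (x ⟨s(w, u), nd e1⟩ = x ⟨s(w, v), nd e2⟩) *
        ind (x ⟨s(w, u'), nd e3⟩ = x ⟨s(w, v'), nd e4⟩) := by
    funext x
    unfold gV
    rw [if_pos h1, if_pos h2]
    simp only
    rw [ind_adj x e1 e2, ind_adj x e3 e4]
  rw [hg]
  unfold rr
  by_cases hc1 : u = u'
  · subst hc1
    rw [if_pos rfl]
    by_cases hc2 : v = v'
    · subst hc2
      rw [if_pos rfl]
      simp only [ind_sq]
      exact bex_eq2 p (edge_ne e1 e2 d1)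
    · rw [if_neg hc2]
      exact bex_eq3 p (edge_ne e1 e2 d1) (edge_ne e1 e4 d2) (edge_ne e2 e4 hc2)
  · rw [if_neg hc1]
    by_cases hc2 : v = v'
    · subst hc2
      rw [if_pos rfl]
      have : (fun x : Edge n → Bool => ind (x ⟨s(w, u), nd e1⟩ = x ⟨s(w, v), nd e2⟩) *
          ind (x ⟨s(w, u'), nd e3⟩ = x ⟨s(w, v), nd e2⟩)) = fun x =>
          ind (x ⟨s(w, v), nd e2⟩ = x ⟨s(w, u), nd e1⟩) *
          ind (x ⟨s(w, v), nd e2⟩ = x ⟨s(w, u'), nd e3⟩) := by
        funext x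
        rw [ind_congr (eq_comm (a := x ⟨s(w, u), nd e1⟩)),
          ind_congr (eq_comm (a := x ⟨s(w, u'), nd e3⟩))]
      rw [this]
      exact bex_eq3 p (edge_ne e2 e1 d1.symm) (edge_ne e2 e3 d3.symm) (edge_ne e1 e3 hc1)
    · rw [if_neg hc2]
      exact bex_eq4 p (edge_ne e1 e2 d1) (edge_ne e3 e4 d4) (edge_ne e1 e3 hc1)
        (edge_ne e1 e4 d2) (edge_ne e2 e3 d3.symm) (edge_ne e2 e4 hc2)

theorem factor_one (p : ℝ) {A B1 B2 : Finset (Fin n)} (hP : Parts A B1 B2) {σ τ : Idx n}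
    (hσ : Ok A B1 B2 σ) {w : Fin n} (h1 : w ∈ σ.1) (h2 : w ∉ τ.1) :
    bex p (fun x => gV σ w x * gV τ w x) = p ^ 2 + (1 - p) ^ 2 := by
  have hd : (fun x => gV σ w x * gV τ w x) = fun x => gV σ w x * gV σ w x := by
    funext x
    have h3 : gV τ w x = 1 := by unfold gV; rw [if_neg h2]
    have h4 : gV σ w x * gV σ w x = gV σ w x := by
      unfold gV; rw [if_pos h1]; exact ind_sq _
    rw [h3, h4, mul_one]
  rw [hd, factor_both p hP hσ hσ h1 h1]
  unfold rr
  rw [if_pos rfl, if_pos rfl]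

theorem bex_TT' (p : ℝ) {A B1 B2 : Finset (Fin n)} (hP : Parts A B1 B2) {σ τ : Idx n}
    (hσ : Ok A B1 B2 σ) (hτ : Ok A B1 B2 τ) :
    bex p (fun x => T σ x * T τ x) = (1 - p) ^ (FF σ ∪ FF τ).card *
      ((p ^ 2 + (1 - p) ^ 2) ^ ((σ.1 \ τ.1).card + (τ.1 \ σ.1).card) *
        (rr p σ.2.1 σ.2.2 τ.2.1 τ.2.2) ^ (σ.1 ∩ τ.1).card) := by
  rw [bex_TT p hP hσ hτ]
  congr 1
  have hU : σ.1 ∪ τ.1 = ((σ.1 \ τ.1) ∪ (τ.1 \ σ.1)) ∪ (σ.1 ∩ τ.1) := by
    ext w
    simp only [mem_union, mem_sdiff, mem_inter]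
    tauto
  have d1 : Disjoint ((σ.1 \ τ.1) ∪ (τ.1 \ σ.1)) (σ.1 ∩ τ.1) := by
    rw [Finset.disjoint_left]
    intro w h1 h2
    simp only [mem_union, mem_sdiff, mem_inter] at h1 h2
    tauto
  have d2 : Disjoint (σ.1 \ τ.1) (τ.1 \ σ.1) := by
    rw [Finset.disjoint_left]
    intro w h1 h2
    simp only [mem_sdiff] at h1 h2
    tauto
  rw [hU, prod_union d1, prod_union d2, pow_add]
  congr 1
  · congr 1
    · rw [← prod_const]
      refine prod_congr rfl fun w hw => ?_
      rw [mem_sdiff] at hw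
      exact factor_one p hP hσ hw.1 hw.2
    · rw [← prod_const]
      refine prod_congr rfl fun w hw => ?_
      rw [mem_sdiff] at hw
      have : (fun x => gV σ w x * gV τ w x) = fun x => gV τ w x * gV σ w x := by
        funext x; ring
      rw [this]
      exact factor_one p hP hτ hw.1 hw.2
  · rw [← prod_const]
    refine prod_congr rfl fun w hw => ?_
    rw [mem_inter] at hw
    exact factor_both p hP hσ hτ hw.1 hw.2

lemma T_sq (σ : Idx n) (x : Edge n → Bool) : T σ x * T σ x = T σ x := by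
  have h1 : ∀ (S : Finset (Edge n)), (∏ e ∈ S, ind (x e = false)) * (∏ e ∈ S, ind (x e = false)) =
      ∏ e ∈ S, ind (x e = false) := by
    intro S
    rw [prod_ind_union, union_self]
  have h2 : (∏ w ∈ σ.1, gV σ w x) * (∏ w ∈ σ.1, gV σ w x) = ∏ w ∈ σ.1, gV σ w x := by
    rw [← prod_mul_distrib]
    refine prod_congr rfl fun w hw => ?_
    unfold gV
    rw [if_pos hw]
    exact ind_sq _
  unfold T
  calc _ = ((∏ e ∈ FF σ, ind (x e = false)) * (∏ e ∈ FF σ, ind (x e = false))) *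
      ((∏ w ∈ σ.1, gV σ w x) * (∏ w ∈ σ.1, gV σ w x)) := by ring
    _ = _ := by rw [h1, h2]

lemma card_FF {A B1 B2 : Finset (Fin n)} (hP : Parts A B1 B2) {σ : Idx n} (h : Ok A B1 B2 σ) :
    (FF σ).card = σ.1.card.choose 2 + 1 := by
  unfold FF
  rw [card_union_of_disjoint, card_pairs, card_uvE (uv_ne hP h)]
  rw [Finset.disjoint_left]
  intro e h1 h2
  unfold pairs at h1
  unfold uvE at h2
  rw [mem_filter] at h1 h2
  have : σ.2.1 ∈ σ.1 := h1.2 _ (by rw [h2.2]; simp)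
  exact Finset.disjoint_left.1 hP.d1 (h.sub this) h.m1

theorem bex_T (p : ℝ) {A B1 B2 : Finset (Fin n)} (hP : Parts A B1 B2) {σ : Idx n}
    (hσ : Ok A B1 B2 σ) :
    bex p (T σ) = (1 - p) ^ (σ.1.card.choose 2 + 1) * (p ^ 2 + (1 - p) ^ 2) ^ σ.1.card := by
  have h1 : T σ = fun x => T σ x * T σ x := by
    funext x; rw [T_sq]
  rw [h1, bex_TT' p hP hσ hσ, union_self, card_FF hP hσ]
  unfold rr
  rw [if_pos rfl, if_pos rfl, sdiff_self, inter_self]
  simp

/-- a lower bound for the number of required non-edges -/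
lemma card_FF_union {A B1 B2 : Finset (Fin n)} (hP : Parts A B1 B2) {σ τ : Idx n}
    (hσ : Ok A B1 B2 σ) (hτ : Ok A B1 B2 τ) :
    (FF σ ∪ FF τ).card + ((σ.1 ∩ τ.1).card.choose 2 +
      (if σ.2.1 = τ.2.1 ∧ σ.2.2 = τ.2.2 then 1 else 0)) =
      (σ.1.card.choose 2 + 1) + (τ.1.card.choose 2 + 1) := by
  have h1 := card_union_add_card_inter (FF σ) (FF τ)
  rw [card_FF hP hσ, card_FF hP hτ] at h1
  rw [← h1]
  congr 1
  have h2 : FF σ ∩ FF τ = pairs (σ.1 ∩ τ.1) ∪ (if σ.2.1 = τ.2.1 ∧ σ.2.2 = τ.2.2 then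
      uvE σ.2.1 σ.2.2 else ∅) := by
    have hA : ∀ {ρ : Idx n}, Ok A B1 B2 ρ → ∀ {I : Finset (Fin n)}, I ⊆ A → ∀ e ∈ pairs I,
        e ∉ uvE ρ.2.1 ρ.2.2 := by
      intro ρ hρ I hI e h3 h4
      unfold pairs at h3
      unfold uvE at h4
      rw [mem_filter] at h3 h4
      have : ρ.2.1 ∈ I := h3.2 _ (by rw [h4.2]; simp)
      exact Finset.disjoint_left.1 hP.d1 (hI this) hρ.m1
    ext e
    rw [mem_inter, mem_union, ← pairs_inter, mem_inter]
    unfold FF
    rw [mem_union, mem_union]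
    constructor
    · rintro ⟨h3 | h3, h4 | h4⟩
      · exact Or.inl ⟨h3, h4⟩
      · exact absurd h4 (hA hτ hσ.sub e h3)
      · exact absurd h3 (hA hσ hτ.sub e h4)
      · right
        have h5 := h3
        unfold uvE at h3 h4
        rw [mem_filter] at h3 h4
        have h6 := h3.2.symm.trans h4.2
        rw [Sym2.eq_iff] at h6
        rcases h6 with h6 | h6
        · rw [if_pos h6]; exact h5
        · exact absurd (h6.1 ▸ hσ.m1) (fun h => Finset.disjoint_left.1 hP.d3 h hτ.m2)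
    · rintro (h3 | h3)
      · exact ⟨Or.inl h3.1, Or.inl h3.2⟩
      · split_ifs at h3 with h4
        · refine ⟨Or.inr h3, Or.inr ?_⟩
          rw [← h4.1, ← h4.2]; exact h3
        · simp at h3
  rw [h2, card_union_of_disjoint, card_pairs]
  · congr 1
    split_ifs
    · exact (card_uvE (uv_ne hP hσ)).symm
    · simp
  · rw [Finset.disjoint_left]
    intro e h3 h4
    split_ifs at h4
    · unfold pairs at h3
      unfold uvE at h4
      rw [mem_filter] at h3 h4
      have : σ.2.1 ∈ σ.1 ∩ τ.1 := h3.2 _ (by rw [h4.2]; simp)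
      exact Finset.disjoint_left.1 hP.d1 (hσ.sub (mem_inter.1 this).1) hσ.m1
    · simp at h4

/-! ### The structure from a nonzero indicator -/

theorem struct_of_T {A B1 B2 : Finset (Fin n)} (hP : Parts A B1 B2) {σ : Idx n}
    (hσ : Ok A B1 B2 σ) {x : Edge n → Bool} (h : T σ x ≠ 0) :
    Struct (ofBool x) σ.1.card := by
  unfold T at h
  have h1 := left_ne_zero_of_mul h
  have h2 := right_ne_zero_of_mul h
  rw [prod_ne_zero_iff] at h1 h2
  have h1' : ∀ e ∈ FF σ, x e = false := by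
    intro e he
    by_contra hcon
    exact h1 e he (by unfold ind; rw [if_neg hcon])
  refine ⟨σ.1, σ.2.1, σ.2.2, rfl, ?_, ?_, ?_, uv_ne hP hσ, ?_, ?_⟩
  · intro a ha b hb hab
    rw [adj_ofBool] at hab
    obtain ⟨hd, hx⟩ := hab
    have := h1' ⟨s(a, b), hd⟩ (by
      unfold FF pairs
      rw [mem_union, mem_filter]
      left
      refine ⟨mem_univ _, ?_⟩
      intro z hz
      rw [Sym2.mem_iff] at hz
      rcases hz with rfl | rfl
      · exact ha
      · exact hb)
    rw [this] at hx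
    exact Bool.noConfusion hx
  · intro h'; exact Finset.disjoint_left.1 hP.d1 (hσ.sub h') hσ.m1
  · intro h'; exact Finset.disjoint_left.1 hP.d2 (hσ.sub h') hσ.m2
  · intro hab
    rw [adj_ofBool] at hab
    obtain ⟨hd, hx⟩ := hab
    have := h1' ⟨s(σ.2.1, σ.2.2), hd⟩ (by
      unfold FF uvE
      rw [mem_union]
      right
      rw [mem_filter]
      exact ⟨mem_univ _, rfl⟩)
    rw [this] at hx
    exact Bool.noConfusion hx
  · intro w hw
    have := h2 w hw
    unfold gV at this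
    rw [if_pos hw] at this
    unfold ind at this
    by_contra hcon
    rw [if_neg hcon] at this
    exact this rfl

end Pool.Agent.N414.BP
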