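import Mathlib
import Pool.Agent.N414.BP.Prob

/-!
# The second moment
-/

set_option autoImplicit false

namespace Pool.Agent.N414.BP

open Finset Pool.Agent.R980
open scoped Classical

section count

variable {α : Type} [DecidableEq α]

lemma card_super (A K : Finset α) (hK : K ⊆ A) (k : ℕ) :
    ((powersetCard k A).filter fun J => K ⊆ J).card ≤ (A.card - K.card).choose (k - K.card) := by
  have h1 : ((powersetCard k A).filter fun J => K ⊆ J) ⊆
      (powersetCard (k - K.card) (A \ K)).image fun L => K ∪ L := by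
    intro J hJ
    rw [mem_filter, mem_powersetCard] at hJ
    obtain ⟨⟨hJA, hJk⟩, hKJ⟩ := hJ
    rw [mem_image]
    refine ⟨J \ K, ?_, ?_⟩
    · rw [mem_powersetCard]
      refine ⟨sdiff_subset_sdiff hJA (Subset.refl _), ?_⟩
      rw [card_sdiff_of_subset hKJ, hJk]
    · rw [union_comm]; exact sdiff_union_of_subset hKJ
  refine (card_le_card h1).trans (card_image_le.trans ?_)
  rw [card_powersetCard, card_sdiff_of_subset hK]

lemma card_inter_eq (A I : Finset α) (hI : I ⊆ A) (k j : ℕ) :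
    ((powersetCard k A).filter fun J => (I ∩ J).card = j).card ≤
      I.card.choose j * (A.card - j).choose (k - j) := by
  have h1 : ((powersetCard k A).filter fun J => (I ∩ J).card = j) ⊆
      (powersetCard j I).biUnion fun K => (powersetCard k A).filter fun J => K ⊆ J := by
    intro J hJ
    rw [mem_filter] at hJ
    rw [mem_biUnion]
    refine ⟨I ∩ J, ?_, ?_⟩
    · rw [mem_powersetCard]; exact ⟨inter_subset_left, hJ.2⟩
    · rw [mem_filter]; exact ⟨hJ.1, inter_subset_right⟩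
  refine (card_le_card h1).trans (card_biUnion_le.trans ?_)
  have h2 : ∀ K ∈ powersetCard j I, ((powersetCard k A).filter fun J => K ⊆ J).card ≤
      (A.card - j).choose (k - j) := by
    intro K hK
    rw [mem_powersetCard] at hK
    have := card_super A K (hK.1.trans hI) k
    rwa [hK.2] at this
  refine (sum_le_card_nsmul _ _ _ h2).trans ?_
  rw [card_powersetCard, smul_eq_mul]

end count

variable {n : ℕ}

/-- the index set -/
noncomputable def SS (A B1 B2 : Finset (Fin n)) (k : ℕ) : Finset (Idx n) :=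
  (powersetCard k A) ×ˢ (B1 ×ˢ B2)

lemma ok_of_mem {A B1 B2 : Finset (Fin n)} {k : ℕ} {σ : Idx n} (h : σ ∈ SS A B1 B2 k) :
    Ok A B1 B2 σ ∧ σ.1.card = k := by
  unfold SS at h
  rw [mem_product, mem_product, mem_powersetCard] at h
  exact ⟨⟨h.1.1, h.2.1, h.2.2⟩, h.1.2⟩

/-- the number of structures -/
noncomputable def XX (A B1 B2 : Finset (Fin n)) (k : ℕ) (x : Edge n → Bool) : ℝ :=
  ∑ σ ∈ SS A B1 B2 k, T σ x

lemma bex_sum {E ι : Type} [Fintype E] [DecidableEq E] (p : ℝ) (S : Finset ι)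
    (f : ι → (E → Bool) → ℝ) : bex p (fun x => ∑ i ∈ S, f i x) = ∑ i ∈ S, bex p (f i) := by
  unfold bex
  rw [sum_comm]
  exact sum_congr rfl fun x _ => by rw [mul_sum]

theorem bex_XX (p : ℝ) {A B1 B2 : Finset (Fin n)} (hP : Parts A B1 B2) (k b : ℕ)
    (h1 : B1.card = b) (h2 : B2.card = b) :
    bex p (XX A B1 B2 k) = (A.card.choose k : ℝ) * (b : ℝ) ^ 2 *
      ((1 - p) ^ (k.choose 2 + 1) * (p ^ 2 + (1 - p) ^ 2) ^ k) := by
  unfold XX
  rw [bex_sum]
  have h3 : ∀ σ ∈ SS A B1 B2 k, bex p (T σ) =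
      (1 - p) ^ (k.choose 2 + 1) * (p ^ 2 + (1 - p) ^ 2) ^ k := by
    intro σ hσ
    obtain ⟨h4, h5⟩ := ok_of_mem hσ
    rw [bex_T p hP h4, h5]
  rw [sum_congr rfl h3, sum_const, nsmul_eq_mul]
  congr 1
  unfold SS
  rw [card_product, card_product, card_powersetCard, h1, h2]
  push_cast
  ring

/-- the relative contribution of the pairs of vertices -/
noncomputable def beta (p : ℝ) (b j : ℕ) : ℝ :=
  1 + 2 / (b : ℝ) * ((p ^ 3 + (1 - p) ^ 3) / (p ^ 2 + (1 - p) ^ 2) ^ 2) ^ j +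
    (1 / (p ^ 2 + (1 - p) ^ 2)) ^ j / ((1 - p) * (b : ℝ) ^ 2)

/-- the bound for the ratio, multiplied by the number of `k`-sets -/
noncomputable def RR (p : ℝ) (a b k : ℕ) : ℝ :=
  ∑ j ∈ range (k + 1), (k.choose j : ℝ) * ((a - j).choose (k - j) : ℝ) *
    (1 / (1 - p)) ^ (j.choose 2) * beta p b j

theorem pair_term {p : ℝ} (h0 : 0 < p) (h1 : p < 1) {A B1 B2 : Finset (Fin n)}
    (hP : Parts A B1 B2) {k : ℕ} {σ τ : Idx n} (hσ : σ ∈ SS A B1 B2 k) (hτ : τ ∈ SS A B1 B2 k) :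
    bex p (fun x => T σ x * T τ x) =
      ((1 - p) ^ (k.choose 2 + 1) * (p ^ 2 + (1 - p) ^ 2) ^ k) ^ 2 *
      (1 / (1 - p)) ^ ((σ.1 ∩ τ.1).card.choose 2) *
      ((1 / (1 - p)) ^ (if σ.2.1 = τ.2.1 ∧ σ.2.2 = τ.2.2 then 1 else 0) *
        (rr p σ.2.1 σ.2.2 τ.2.1 τ.2.2 / (p ^ 2 + (1 - p) ^ 2) ^ 2) ^ (σ.1 ∩ τ.1).card) := by
  obtain ⟨o1, c1⟩ := ok_of_mem hσ
  obtain ⟨o2, c2⟩ := ok_of_mem hτ
  rw [bex_TT' p hP o1 o2]
  have hF := card_FF_union hP o1 o2
  rw [c1, c2] at hF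
  set j := (σ.1 ∩ τ.1).card with hj
  set δ := (if σ.2.1 = τ.2.1 ∧ σ.2.2 = τ.2.2 then 1 else 0 : ℕ) with hδ
  set s := p ^ 2 + (1 - p) ^ 2 with hs
  set q := 1 - p with hq
  have hq0 : q ≠ 0 := by rw [hq]; linarith
  have hs0 : s ≠ 0 := by
    have : 0 < s := by rw [hs]; positivity
    exact this.ne'
  have e1 : (σ.1 \ τ.1).card + j = k := by
    rw [hj, ← c1]; exact card_sdiff_add_card_inter _ _
  have e2 : (τ.1 \ σ.1).card + j = k := by
    rw [hj, ← c2, inter_comm]; exact card_sdiff_add_card_inter _ _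
  have f1 : q ^ (FF σ ∪ FF τ).card = (q ^ (k.choose 2 + 1)) ^ 2 * (1 / q) ^ (j.choose 2) *
      (1 / q) ^ δ := by
    rw [one_div, inv_pow, inv_pow, ← pow_mul]
    have : (k.choose 2 + 1) * 2 = (FF σ ∪ FF τ).card + (j.choose 2 + δ) := by omega
    rw [this, pow_add, pow_add]
    field_simp
  have f2 : s ^ ((σ.1 \ τ.1).card + (τ.1 \ σ.1).card) = (s ^ k) ^ 2 / (s ^ 2) ^ j := by
    rw [eq_div_iff (pow_ne_zero _ (pow_ne_zero _ hs0)), ← pow_mul, ← pow_mul, ← pow_add]
    congr 1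
    omega
  rw [f1, f2, div_pow (rr p σ.2.1 σ.2.2 τ.2.1 τ.2.2)]
  ring

lemma rr_sum_le {p : ℝ} (h0 : 0 < p) (h1 : p < 1) {B1 B2 : Finset (Fin n)} {b : ℕ}
    (c1 : B1.card = b) (c2 : B2.card = b) (hb : 0 < b) (u v : Fin n) (j : ℕ) :
    ∑ w ∈ B1 ×ˢ B2, ((1 / (1 - p)) ^ (if u = w.1 ∧ v = w.2 then 1 else 0) *
        (rr p u v w.1 w.2 / (p ^ 2 + (1 - p) ^ 2) ^ 2) ^ j) ≤ (b : ℝ) ^ 2 * beta p b j := by
  set s := p ^ 2 + (1 - p) ^ 2 with hs
  set t := p ^ 3 + (1 - p) ^ 3 with ht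
  have hq0 : 0 < 1 - p := by linarith
  have hs0 : 0 < s := by rw [hs]; positivity
  have ht0 : 0 < t := by rw [ht]; positivity
  have hb0 : (0 : ℝ) < b := by exact_mod_cast hb
  -- the four cases
  have hterm : ∀ w ∈ B1 ×ˢ B2, ((1 / (1 - p)) ^ (if u = w.1 ∧ v = w.2 then 1 else 0) *
      (rr p u v w.1 w.2 / s ^ 2) ^ j) ≤ 1 + (if w.1 = u then (t / s ^ 2) ^ j else 0) +
      (if w.2 = v then (t / s ^ 2) ^ j else 0) +
      (if w = (u, v) then (1 / s) ^ j / (1 - p) else 0) := by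
    intro w _
    have p1 : 0 < (t / s ^ 2) ^ j := by positivity
    have p2 : 0 < (1 / s) ^ j / (1 - p) := by positivity
    unfold rr
    rw [← hs, ← ht]
    by_cases e1 : u = w.1
    · by_cases e2 : v = w.2
      · rw [if_pos ⟨e1, e2⟩, if_pos e1, if_pos e2, if_pos e1.symm, if_pos e2.symm,
          if_pos (Prod.ext e1.symm e2.symm)]
        have : s / s ^ 2 = 1 / s := by field_simp
        rw [this, pow_one]
        have h3 : 1 / (1 - p) * (1 / s) ^ j = (1 / s) ^ j / (1 - p) := by ring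
        rw [h3]
        linarith
      · rw [if_neg (fun h => e2 h.2), if_pos e1, if_neg e2, if_pos e1.symm,
          if_neg (fun h => e2 h.symm), if_neg (fun h => e2 (by rw [h]))]
        simp only [pow_zero, one_mul, add_zero]
        linarith
    · by_cases e2 : v = w.2
      · rw [if_neg (fun h => e1 h.1), if_neg e1, if_pos e2, if_neg (fun h => e1 h.symm),
          if_pos e2.symm, if_neg (fun h => e1 (by rw [h]))]
        simp only [pow_zero, one_mul, add_zero]
        linarith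
      · rw [if_neg (fun h => e2 h.2), if_neg e1, if_neg e2, if_neg (fun h => e1 h.symm),
          if_neg (fun h => e2 h.symm), if_neg (fun h => e2 (by rw [h]))]
        simp only [pow_zero, one_mul, add_zero]
        rw [div_self (pow_ne_zero _ hs0.ne'), one_pow]
  refine (sum_le_sum hterm).trans ?_
  rw [sum_add_distrib, sum_add_distrib, sum_add_distrib]
  have s1 : ∑ w ∈ B1 ×ˢ B2, (1 : ℝ) = (b : ℝ) ^ 2 := by
    rw [sum_const, card_product, c1, c2, nsmul_eq_mul]; push_cast; ring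
  have s2 : ∑ w ∈ B1 ×ˢ B2, (if w.1 = u then (t / s ^ 2) ^ j else 0) ≤ b * (t / s ^ 2) ^ j := by
    rw [sum_product_right]
    have : ∀ y ∈ B2, ∑ x ∈ B1, (if (x, y).1 = u then (t / s ^ 2) ^ j else 0) ≤
        (t / s ^ 2) ^ j := by
      intro y _
      simp only
      rw [sum_ite_eq']
      split_ifs
      · exact le_rfl
      · positivity
    refine (sum_le_card_nsmul _ _ _ this).trans ?_
    rw [c2, nsmul_eq_mul]
  have s3 : ∑ w ∈ B1 ×ˢ B2, (if w.2 = v then (t / s ^ 2) ^ j else 0) ≤ b * (t / s ^ 2) ^ j := by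
    rw [sum_product]
    have : ∀ x ∈ B1, ∑ y ∈ B2, (if (x, y).2 = v then (t / s ^ 2) ^ j else 0) ≤
        (t / s ^ 2) ^ j := by
      intro x _
      simp only
      rw [sum_ite_eq']
      split_ifs
      · exact le_rfl
      · positivity
    refine (sum_le_card_nsmul _ _ _ this).trans ?_
    rw [c1, nsmul_eq_mul]
  have s4 : ∑ w ∈ B1 ×ˢ B2, (if w = (u, v) then (1 / s) ^ j / (1 - p) else 0) ≤
      (1 / s) ^ j / (1 - p) := by
    rw [sum_ite_eq']
    split_ifs
    · exact le_rfl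
    · positivity
  have hbeta : (b : ℝ) ^ 2 * beta p b j = (b : ℝ) ^ 2 + (b * (t / s ^ 2) ^ j + b * (t / s ^ 2) ^ j)
      + (1 / s) ^ j / (1 - p) := by
    unfold beta
    rw [← hs, ← ht]
    field_simp
    ring
  rw [hbeta, s1]
  linarith

lemma rr_pos {p : ℝ} (h0 : 0 < p) (h1 : p < 1) (u v u' v' : Fin n) : 0 < rr p u v u' v' := by
  have hq0 : 0 < 1 - p := by linarith
  unfold rr
  split_ifs <;> positivity

theorem row_sum {p : ℝ} (h0 : 0 < p) (h1 : p < 1) {A B1 B2 : Finset (Fin n)}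
    (hP : Parts A B1 B2) {k b : ℕ} (c1 : B1.card = b) (c2 : B2.card = b) (hb : 0 < b)
    {σ : Idx n} (hσ : σ ∈ SS A B1 B2 k) :
    ∑ τ ∈ SS A B1 B2 k, bex p (fun x => T σ x * T τ x) ≤
      ((1 - p) ^ (k.choose 2 + 1) * (p ^ 2 + (1 - p) ^ 2) ^ k) ^ 2 * ((b : ℝ) ^ 2 *
        RR p A.card b k) := by
  obtain ⟨o1, k1⟩ := ok_of_mem hσ
  have hq0 : 0 < 1 - p := by linarith
  set M := ((1 - p) ^ (k.choose 2 + 1) * (p ^ 2 + (1 - p) ^ 2) ^ k) ^ 2 with hM
  have hM0 : 0 ≤ M := sq_nonneg _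
  have hbeta0 : ∀ j, 0 ≤ beta p b j := by
    intro j; unfold beta; positivity
  rw [sum_congr rfl fun τ hτ => pair_term h0 h1 hP hσ hτ]
  unfold SS
  rw [sum_product]
  have step1 : ∀ J ∈ powersetCard k A, ∑ w ∈ B1 ×ˢ B2, M *
      (1 / (1 - p)) ^ ((σ.1 ∩ (J, w).1).card.choose 2) *
      ((1 / (1 - p)) ^ (if σ.2.1 = (J, w).2.1 ∧ σ.2.2 = (J, w).2.2 then 1 else 0) *
        (rr p σ.2.1 σ.2.2 (J, w).2.1 (J, w).2.2 / (p ^ 2 + (1 - p) ^ 2) ^ 2) ^
          (σ.1 ∩ (J, w).1).card) ≤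
      M * ((b : ℝ) ^ 2 * ((1 / (1 - p)) ^ ((σ.1 ∩ J).card.choose 2) *
        beta p b (σ.1 ∩ J).card)) := by
    intro J _
    simp only
    rw [← mul_sum]
    have h3 := rr_sum_le h0 h1 c1 c2 hb σ.2.1 σ.2.2 (σ.1 ∩ J).card
    have h4 : 0 ≤ M * (1 / (1 - p)) ^ ((σ.1 ∩ J).card.choose 2) := by positivity
    refine (mul_le_mul_of_nonneg_left h3 h4).trans (le_of_eq ?_)
    ring
  refine (sum_le_sum step1).trans ?_
  rw [← mul_sum, ← mul_sum]
  refine mul_le_mul_of_nonneg_left (mul_le_mul_of_nonneg_left ?_ (by positivity)) hM0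
  -- group by the size of the intersection
  have hmaps : ∀ J ∈ powersetCard k A, (σ.1 ∩ J).card ∈ range (k + 1) := by
    intro J _
    rw [mem_range]
    have := card_le_card (inter_subset_left (s₁ := σ.1) (s₂ := J))
    omega
  rw [← sum_fiberwise_of_maps_to hmaps]
  unfold RR
  refine sum_le_sum fun j hj => ?_
  have h5 : ∀ J ∈ (powersetCard k A).filter (fun J => (σ.1 ∩ J).card = j),
      (1 / (1 - p)) ^ ((σ.1 ∩ J).card.choose 2) * beta p b (σ.1 ∩ J).card =
      (1 / (1 - p)) ^ (j.choose 2) * beta p b j := by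
    intro J hJ
    rw [mem_filter] at hJ
    rw [hJ.2]
  rw [sum_congr rfl h5, sum_const, nsmul_eq_mul]
  have h6 := card_inter_eq A σ.1 o1.sub k j
  rw [k1] at h6
  have h7 : (((powersetCard k A).filter (fun J => (σ.1 ∩ J).card = j)).card : ℝ) ≤
      (k.choose j : ℝ) * ((A.card - j).choose (k - j) : ℝ) := by
    exact_mod_cast h6
  have h8 : 0 ≤ (1 / (1 - p)) ^ (j.choose 2) * beta p b j :=
    mul_nonneg (by positivity) (hbeta0 j)
  refine (mul_le_mul_of_nonneg_right h7 h8).trans (le_of_eq ?_)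
  ring

/-- The probability that there is a structure. -/
theorem prob_struct {p : ℝ} (h0 : 0 < p) (h1 : p < 1) {A B1 B2 : Finset (Fin n)}
    (hP : Parts A B1 B2) {k b : ℕ} (c1 : B1.card = b) (c2 : B2.card = b) (hb : 0 < b)
    (hk : k ≤ A.card) :
    (A.card.choose k : ℝ) ≤ gnp n p (fun G => Struct G k) * RR p A.card b k := by
  have hq0 : 0 < 1 - p := by linarith
  have hcs := second_moment h0.le h1.le (XX A B1 B2 k)
  rw [bex_XX p hP k b c1 c2] at hcs
  set m := (1 - p) ^ (k.choose 2 + 1) * (p ^ 2 + (1 - p) ^ 2) ^ k with hm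
  have hm0 : 0 < m := by rw [hm]; positivity
  have hb0 : (0 : ℝ) < b := by exact_mod_cast hb
  have hc0 : (0 : ℝ) < A.card.choose k := by exact_mod_cast Nat.choose_pos hk
  -- the second moment
  have h2 : bex p (fun x => XX A B1 B2 k x * XX A B1 B2 k x) ≤
      ((A.card.choose k : ℝ) * (b : ℝ) ^ 2) * (m ^ 2 * ((b : ℝ) ^ 2 * RR p A.card b k)) := by
    have h3 : (fun x => XX A B1 B2 k x * XX A B1 B2 k x) = fun x =>
        ∑ σ ∈ SS A B1 B2 k, ∑ τ ∈ SS A B1 B2 k, T σ x * T τ x := by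
      funext x
      unfold XX
      rw [sum_mul_sum]
    rw [h3, bex_sum]
    have h4 : ∀ σ ∈ SS A B1 B2 k, bex p (fun x => ∑ τ ∈ SS A B1 B2 k, T σ x * T τ x) ≤
        m ^ 2 * ((b : ℝ) ^ 2 * RR p A.card b k) := by
      intro σ hσ
      rw [bex_sum]
      exact row_sum h0 h1 hP c1 c2 hb hσ
    refine (sum_le_card_nsmul _ _ _ h4).trans (le_of_eq ?_)
    rw [nsmul_eq_mul]
    congr 1
    unfold SS
    rw [card_product, card_product, card_powersetCard, c1, c2]
    push_cast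
    ring
  -- the event
  have h5 : bex p (fun x => ind (XX A B1 B2 k x ≠ 0)) ≤ gnp n p (fun G => Struct G k) := by
    rw [gnp_eq_bex]
    refine bex_mono h0.le h1.le fun x => ?_
    unfold ind
    by_cases h : XX A B1 B2 k x = 0
    · rw [if_neg (not_not.2 h)]
      split_ifs <;> norm_num
    · rw [if_pos h, if_pos]
      unfold XX at h
      obtain ⟨σ, hσ, hT⟩ := exists_ne_zero_of_sum_ne_zero h
      obtain ⟨o1, k1⟩ := ok_of_mem hσ
      have := struct_of_T hP o1 hT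
      rwa [k1] at this
  have hRR : 0 ≤ RR p A.card b k := by
    unfold RR
    refine sum_nonneg fun j _ => ?_
    have : 0 ≤ beta p b j := by unfold beta; positivity
    positivity
  have hg0 := gnp_nonneg (n := n) h0.le h1.le (fun G => Struct G k)
  have h6 : bex p (fun x => ind (XX A B1 B2 k x ≠ 0)) *
      bex p (fun x => XX A B1 B2 k x * XX A B1 B2 k x) ≤
      gnp n p (fun G => Struct G k) *
        (((A.card.choose k : ℝ) * (b : ℝ) ^ 2) * (m ^ 2 * ((b : ℝ) ^ 2 * RR p A.card b k))) := by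
    have h7 : 0 ≤ bex p (fun x => XX A B1 B2 k x * XX A B1 B2 k x) := by
      unfold bex
      exact sum_nonneg fun x _ => mul_nonneg (bw_nonneg h0.le h1.le x) (mul_self_nonneg _)
    exact mul_le_mul h5 h2 h7 hg0
  have h8 := hcs.trans h6
  have h9 : ((A.card.choose k : ℝ) * (b : ℝ) ^ 2 * m) ^ 2 =
      (A.card.choose k : ℝ) * ((A.card.choose k : ℝ) * ((b : ℝ) ^ 2) ^ 2 * m ^ 2) := by ring
  have h10 : gnp n p (fun G => Struct G k) *
        (((A.card.choose k : ℝ) * (b : ℝ) ^ 2) * (m ^ 2 * ((b : ℝ) ^ 2 * RR p A.card b k))) =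
      (gnp n p (fun G => Struct G k) * RR p A.card b k) *
        ((A.card.choose k : ℝ) * ((b : ℝ) ^ 2) ^ 2 * m ^ 2) := by ring
  rw [h9, h10] at h8
  exact le_of_mul_le_mul_right h8 (by positivity)

/-- The first moment bound for the independence number. -/
theorem prob_indep {p : ℝ} (h0 : 0 < p) (h1 : p < 1) (k : ℕ) :
    gnp n p (fun G => ∃ S : Finset (Fin n), S.card = k ∧ ∀ x ∈ S, ∀ y ∈ S, ¬ G.Adj x y) ≤
      (n.choose k : ℝ) * (1 - p) ^ (k.choose 2) := by
  have h := gnp_markov (n := n) h0.le h1.le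
    (fun G => ∃ S : Finset (Fin n), S.card = k ∧ ∀ x ∈ S, ∀ y ∈ S, ¬ G.Adj x y)
    (fun x => ∑ S ∈ powersetCard k (univ : Finset (Fin n)), ∏ e ∈ pairs S, ind (x e = false))
    (fun x => sum_nonneg fun S _ => prod_nonneg fun e _ => ind_nonneg _) 1 one_pos ?_
  · rw [div_one, bex_sum] at h
    refine h.trans (le_of_eq ?_)
    have h2 : ∀ S ∈ powersetCard k (univ : Finset (Fin n)),
        bex p (fun x : Edge n → Bool => ∏ e ∈ pairs S, ind (x e = false)) =
          (1 - p) ^ (k.choose 2) := by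
      intro S hS
      rw [mem_powersetCard] at hS
      rw [bex_cyl, card_pairs, hS.2]
      simp
    rw [sum_congr rfl h2, sum_const, card_powersetCard, card_univ, Fintype.card_fin, nsmul_eq_mul]
  · rintro x ⟨S, hS, hind⟩
    have h3 : (1 : ℝ) = ∏ e ∈ pairs S, ind (x e = false) := by
      symm
      refine prod_eq_one fun e he => ?_
      unfold ind
      rw [if_pos]
      obtain ⟨e, hd⟩ := e
      induction e with
      | _ a b =>
        unfold pairs at he
        rw [mem_filter] at he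
        have ha : a ∈ S := he.2 a (by simp)
        have hb : b ∈ S := he.2 b (by simp)
        have := hind a ha b hb
        rw [adj_iff x hd] at this
        simpa using this
    rw [h3]
    exact single_le_sum (f := fun S => ∏ e ∈ pairs S, ind (x e = false))
      (fun S _ => prod_nonneg fun e _ => ind_nonneg _)
      (by rw [mem_powersetCard]; exact ⟨subset_univ _, hS⟩)

end Pool.Agent.N414.BP
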