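import Mathlib
import Pool.Agent.N414.BP.Count

/-!
# Choice of the parameters
-/

set_option autoImplicit false

namespace Pool.Agent.N414.BP

open Finset Pool.Agent.R980 Filter Topology

/-- `c = 7/5`, the square root of `1/(1-p)` for `p = 24/49` -/
noncomputable def cc : ℝ := 7 / 5

/-- the parameters -/
structure Par (m n a b : ℕ) (y : ℝ) : Prop where
  hy0 : 0 ≤ y
  hy : y ^ (2 * m + 1) = ((2 * m + 1).factorial : ℝ) * cc ^ (2 * m * (2 * m + 1)) / 8
  hn1 : (n : ℝ) ≤ y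
  hn2 : y < n + 1
  hb : b = n / 32
  ha : a = n - 2 * b
  hm : 1 ≤ m
  H1 : 4000 * (m : ℝ) ^ 2 ≤ cc ^ m
  H5 : 8 * (2 + 3200 * (4 : ℝ) ^ m / (cc ^ m) ^ 4) * 40 ≤ ((9 / 10 * cc) ^ m) ^ 2

lemma cc_pos : 0 < cc := by unfold cc; norm_num

lemma one_le_cc : 1 ≤ cc := by unfold cc; norm_num

lemma exists_par (N : ℕ) : ∃ m n a b : ℕ, ∃ y : ℝ, N ≤ n ∧ Par m n a b y := by
  have t1 : Tendsto (fun m : ℕ => (m : ℝ) ^ 2 / cc ^ m) atTop (𝓝 0) :=
    tendsto_pow_const_div_const_pow_of_one_lt 2 (by unfold cc; norm_num)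
  have e1 : ∀ᶠ m : ℕ in atTop, (m : ℝ) ^ 2 / cc ^ m < 1 / 4000 :=
    t1.eventually (gt_mem_nhds (by norm_num))
  have t2 : Tendsto (fun m : ℕ => ((2 / 3 : ℝ)) ^ m) atTop (𝓝 0) :=
    tendsto_pow_atTop_nhds_zero_of_lt_one (by norm_num) (by norm_num)
  have e2 : ∀ᶠ m : ℕ in atTop, ((2 / 3 : ℝ)) ^ m < 1 / 10000000 :=
    t2.eventually (gt_mem_nhds (by norm_num))
  have t3 : Tendsto (fun m : ℕ => ((9 / 10 : ℝ)) ^ m) atTop (𝓝 0) :=
    tendsto_pow_atTop_nhds_zero_of_lt_one (by norm_num) (by norm_num)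
  have e3 : ∀ᶠ m : ℕ in atTop, ((9 / 10 : ℝ)) ^ m < 1 / 10000000 :=
    t3.eventually (gt_mem_nhds (by norm_num))
  obtain ⟨m, h1, h2, h3, h4, h5⟩ := (e1.and (e2.and (e3.and
    ((eventually_ge_atTop 1).and (eventually_ge_atTop N))))).exists
  set M : ℝ := ((2 * m + 1).factorial : ℝ) * cc ^ (2 * m * (2 * m + 1)) / 8 with hM
  have hc := cc_pos
  have hM0 : 0 ≤ M := by rw [hM]; positivity
  set y : ℝ := M ^ (((2 * m + 1 : ℕ) : ℝ)⁻¹) with hy
  have hy0 : 0 ≤ y := Real.rpow_nonneg hM0 _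
  have hyM : y ^ (2 * m + 1) = M := Real.rpow_inv_natCast_pow hM0 (by omega)
  have hcm : 0 < cc ^ m := pow_pos hc m
  have H1 : 4000 * (m : ℝ) ^ 2 ≤ cc ^ m := by
    rw [div_lt_iff₀ hcm] at h1
    linarith
  -- `y` is large
  have hylarge : cc ^ (2 * m) ≤ y := by
    have h6 : (cc ^ (2 * m)) ^ (2 * m + 1) ≤ y ^ (2 * m + 1) := by
      rw [hyM, hM, ← pow_mul]
      have h7 : (8 : ℝ) ≤ ((2 * m + 1).factorial : ℝ) := by
        have h8 : (4 : ℕ).factorial ≤ (2 * m + 1).factorial := by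
          apply Nat.factorial_le
          have hm1 : (1 : ℝ) ≤ m := by exact_mod_cast h4
          have : m ≠ 1 := by
            rintro rfl
            unfold cc at H1
            norm_num at H1
          omega
        have h9 : (24 : ℕ) ≤ (2 * m + 1).factorial := h8
        have h10 : (24 : ℝ) ≤ ((2 * m + 1).factorial : ℝ) := by exact_mod_cast h9
        linarith
      have h8 : 0 < cc ^ (2 * m * (2 * m + 1)) := pow_pos hc _
      rw [le_div_iff₀ (by norm_num)]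
      nlinarith
    exact le_of_pow_le_pow_left₀ (by omega) hy0 h6
  refine ⟨m, ⌊y⌋₊, ⌊y⌋₊ - 2 * (⌊y⌋₊ / 32), ⌊y⌋₊ / 32, y, ?_, ?_⟩
  · apply Nat.le_floor
    refine le_trans ?_ hylarge
    have h6 : (N : ℝ) ≤ m := by exact_mod_cast h5
    have h7 : (1 : ℝ) ≤ m := by exact_mod_cast h4
    have h8 : (1 : ℝ) ≤ cc ^ m := one_le_pow₀ one_le_cc
    have h9 : cc ^ (2 * m) = cc ^ m * cc ^ m := by rw [two_mul, pow_add]
    rw [h9]
    nlinarith
  · refine ⟨hy0, hyM, Nat.floor_le hy0, Nat.lt_floor_add_one y, rfl, rfl, h4, H1, ?_⟩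
    -- the last condition
    have hA : ((9 / 10 * cc) ^ m) ^ 2 = ((9 / 10 * cc) ^ 2) ^ m := by
      rw [← pow_mul, ← pow_mul, mul_comm m 2]
    have hB : (cc ^ m) ^ 4 = (cc ^ 4) ^ m := by rw [← pow_mul, ← pow_mul, mul_comm m 4]
    rw [hA, hB]
    have hC : (0 : ℝ) < ((9 / 10 * cc) ^ 2) ^ m := by positivity
    have hD : (2 : ℝ) * 320 ≤ 1 / 2 * ((9 / 10 * cc) ^ 2) ^ m := by
      have k1 : (1 : ℝ) ≤ (9 / 10 : ℝ) ^ m * ((9 / 10 * cc) ^ 2) ^ m := by
        rw [← mul_pow]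
        exact one_le_pow₀ (by unfold cc; norm_num)
      have k2 : (9 / 10 : ℝ) ^ m * ((9 / 10 * cc) ^ 2) ^ m ≤
          1 / 10000000 * ((9 / 10 * cc) ^ 2) ^ m :=
        mul_le_mul_of_nonneg_right h3.le hC.le
      linarith
    have hE : (4 : ℝ) ^ m / (cc ^ 4) ^ m ≤ 1 / 10000000 * ((9 / 10 * cc) ^ 2) ^ m := by
      rw [← div_pow]
      have k1 : (4 / cc ^ 4 : ℝ) ^ m ≤ (2 / 3 : ℝ) ^ m * ((9 / 10 * cc) ^ 2) ^ m := by
        rw [← mul_pow]
        apply pow_le_pow_left₀ (by positivity)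
        unfold cc
        norm_num
      refine k1.trans ?_
      exact mul_le_mul_of_nonneg_right h2.le hC.le
    have hF : 8 * (2 + 3200 * (4 : ℝ) ^ m / (cc ^ 4) ^ m) * 40 =
        2 * 320 + 1024000 * ((4 : ℝ) ^ m / (cc ^ 4) ^ m) := by ring
    rw [hF]
    linarith

section par

variable {m n a b : ℕ} {y : ℝ}

lemma Par.cm (h : Par m n a b y) : 4000 ≤ cc ^ m := by
  have h1 : (1 : ℝ) ≤ m := by exact_mod_cast h.hm
  nlinarith [h.H1]

lemma cpow (m : ℕ) : cc ^ (2 * m) = cc ^ m * cc ^ m := by rw [two_mul, pow_add]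

lemma Par.le_y (h : Par m n a b y) : cc ^ (2 * m) ≤ y := by
  have hc := cc_pos
  have h6 : (cc ^ (2 * m)) ^ (2 * m + 1) ≤ y ^ (2 * m + 1) := by
    rw [h.hy, ← pow_mul]
    have h7 : (8 : ℝ) ≤ ((2 * m + 1).factorial : ℝ) := by
      have h8 : (4 : ℕ).factorial ≤ (2 * m + 1).factorial := by
        apply Nat.factorial_le
        have : m ≠ 1 := by
          rintro rfl
          have := h.H1
          unfold cc at this
          norm_num at this
        have := h.hm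
        omega
      have h9 : (24 : ℕ) ≤ (2 * m + 1).factorial := h8
      have h10 : (24 : ℝ) ≤ ((2 * m + 1).factorial : ℝ) := by exact_mod_cast h9
      linarith
    have h8 : 0 < cc ^ (2 * m * (2 * m + 1)) := pow_pos hc _
    rw [le_div_iff₀ (by norm_num)]
    nlinarith
  exact le_of_pow_le_pow_left₀ (by omega) h.hy0 h6

lemma Par.y_le (h : Par m n a b y) : y ≤ (2 * m + 1) * cc ^ (2 * m) := by
  have hc := cc_pos
  have h6 : y ^ (2 * m + 1) ≤ ((2 * m + 1) * cc ^ (2 * m)) ^ (2 * m + 1) := by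
    rw [h.hy, mul_pow, ← pow_mul]
    have h7 : ((2 * m + 1).factorial : ℝ) ≤ (2 * m + 1 : ℝ) ^ (2 * m + 1) := by
      have := Nat.factorial_le_pow (2 * m + 1)
      exact_mod_cast this
    have h8 : 0 < cc ^ (2 * m * (2 * m + 1)) := pow_pos hc _
    have h9 : (0 : ℝ) ≤ ((2 * m + 1).factorial : ℝ) := by positivity
    rw [div_le_iff₀ (by norm_num)]
    nlinarith [mul_le_mul_of_nonneg_right h7 h8.le]
  exact le_of_pow_le_pow_left₀ (by omega) (by positivity) h6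

lemma Par.y_big (h : Par m n a b y) : 16000000 ≤ y := by
  have h1 := h.le_y
  rw [cpow] at h1
  nlinarith [h.cm]

lemma Par.b_ge (h : Par m n a b y) : y / 40 ≤ b := by
  have h1 : n < 32 * (b + 1) := by
    rw [h.hb]; omega
  have h2 : (n : ℝ) + 1 ≤ 32 * (b + 1) := by exact_mod_cast h1
  have h3 := h.hn2
  have h4 := h.y_big
  linarith

lemma Par.a_ge (h : Par m n a b y) : 9 / 10 * y ≤ (a : ℝ) - 2 * m := by
  have h1 : 16 * a ≥ 15 * n := by
    rw [h.ha, h.hb]; omega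
  have h2 : (16 : ℝ) * a ≥ 15 * n := by exact_mod_cast h1
  have h3 := h.hn2
  have h4 := h.y_big
  have h5 := h.le_y
  rw [cpow] at h5
  have h6 := h.H1
  have h7 := h.cm
  have h8 : (1 : ℝ) ≤ m := by exact_mod_cast h.hm
  have h9 : 4000 * (4000 * (m : ℝ) ^ 2) ≤ cc ^ m * cc ^ m := by
    have : 0 ≤ 4000 * (m : ℝ) ^ 2 := by positivity
    nlinarith
  nlinarith

lemma Par.a_le (h : Par m n a b y) : (a : ℝ) ≤ y := by
  have h1 : a ≤ n := by rw [h.ha]; omega
  have h2 : (a : ℝ) ≤ n := by exact_mod_cast h1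
  exact h2.trans h.hn1

lemma Par.k_le (h : Par m n a b y) : 2 * m ≤ a := by
  have h1 := h.a_ge
  have h2 := h.y_big
  have h3 : (2 * m : ℝ) ≤ a := by linarith
  exact_mod_cast h3

lemma Par.b_pos (h : Par m n a b y) : 0 < b := by
  have h1 := h.b_ge
  have h2 := h.y_big
  have h3 : (0 : ℝ) < b := by linarith
  exact_mod_cast h3

lemma two_choose (j : ℕ) : 2 * j.choose 2 = j * (j - 1) := by
  rw [Nat.choose_two_right, Nat.mul_div_cancel' (Nat.even_mul_pred_self j).two_dvd]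

lemma q_pow (j : ℕ) : (1 / (1 - (24 / 49 : ℝ))) ^ (j.choose 2) = cc ^ (j * (j - 1)) := by
  rw [← two_choose, pow_mul]
  congr 1
  unfold cc
  norm_num

/-- lower bound for the expected number of independent sets -/
lemma Par.choose_ge (h : Par m n a b y) :
    ((9 / 10 * cc) ^ m) ^ 2 / 8 * cc ^ (2 * m * (2 * m - 1)) ≤ (a.choose (2 * m) : ℝ) := by
  have hc := cc_pos
  have hm := h.hm
  set k := 2 * m with hk
  have hfac : (0 : ℝ) < (k.factorial : ℝ) := by exact_mod_cast Nat.factorial_pos k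
  have hy0 : 0 < y := by linarith [h.y_big]
  -- `(a - k)^k ≤ k! * choose`
  have h1 : (a + 1 - k) ^ k ≤ a.descFactorial k := Nat.pow_sub_le_descFactorial a k
  rw [Nat.descFactorial_eq_factorial_mul_choose] at h1
  have h2 : ((a : ℝ) - k) ^ k ≤ (k.factorial : ℝ) * (a.choose k : ℝ) := by
    have h3 : (((a + 1 - k : ℕ) : ℝ)) ^ k ≤ (k.factorial : ℝ) * (a.choose k : ℝ) := by
      exact_mod_cast h1
    refine le_trans ?_ h3
    have h4 := h.k_le
    apply pow_le_pow_left₀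
    · have : (k : ℝ) ≤ a := by exact_mod_cast h4
      linarith
    · rw [Nat.cast_sub (by omega)]
      push_cast
      linarith
  have h5 : (9 / 10 * y) ^ k ≤ ((a : ℝ) - k) ^ k := by
    apply pow_le_pow_left₀ (by positivity)
    have := h.a_ge
    rw [hk]; push_cast; exact this
  -- the value of `y ^ k`
  have h6 : y ^ k * y = ((k : ℝ) + 1) * (k.factorial : ℝ) * cc ^ (k * (k + 1)) / 8 := by
    have hy' : y ^ (k + 1) = ((k + 1).factorial : ℝ) * cc ^ (k * (k + 1)) / 8 := h.hy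
    rw [← pow_succ, hy', Nat.factorial_succ, Nat.cast_mul, Nat.cast_add, Nat.cast_one]
  have h7 : cc ^ (k * k) / 8 * (k.factorial : ℝ) ≤ y ^ k := by
    have h8 := h.y_le
    have h9 : cc ^ (k * k) / 8 * (k.factorial : ℝ) * y ≤ y ^ k * y := by
      rw [h6]
      have h10 : cc ^ (k * (k + 1)) = cc ^ (k * k) * cc ^ k := by rw [mul_add, mul_one, pow_add]
      rw [h10]
      have h11 : 0 ≤ cc ^ (k * k) / 8 * (k.factorial : ℝ) := by positivity
      have h12 := mul_le_mul_of_nonneg_left h8 h11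
      refine h12.trans (le_of_eq ?_)
      have hkr : (2 * (m : ℝ) + 1) = (k : ℝ) + 1 := by rw [hk]; push_cast; ring
      rw [hkr]
      ring
    exact le_of_mul_le_mul_right h9 hy0
  have h13 : ((9 / 10 * cc) ^ m) ^ 2 = (9 / 10) ^ k * cc ^ k := by
    rw [← pow_mul, mul_pow, hk, mul_comm m 2]
  have h14 : cc ^ k * cc ^ (k * (k - 1)) = cc ^ (k * k) := by
    rw [← pow_add]
    congr 1
    have : 1 ≤ k := by omega
    obtain ⟨l, hl⟩ : ∃ l, k = l + 1 := ⟨k - 1, by omega⟩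
    rw [hl]
    simp only [Nat.add_sub_cancel]
    ring
  have h15 : ((9 / 10 * cc) ^ m) ^ 2 / 8 * cc ^ (k * (k - 1)) * (k.factorial : ℝ) ≤
      (a.choose k : ℝ) * (k.factorial : ℝ) := by
    calc ((9 / 10 * cc) ^ m) ^ 2 / 8 * cc ^ (k * (k - 1)) * (k.factorial : ℝ)
        = (9 / 10) ^ k * (cc ^ (k * k) / 8 * (k.factorial : ℝ)) := by
          rw [h13, ← h14]; ring
      _ ≤ (9 / 10) ^ k * y ^ k := mul_le_mul_of_nonneg_left h7 (by positivity)
      _ = (9 / 10 * y) ^ k := by rw [mul_pow]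
      _ ≤ (k.factorial : ℝ) * (a.choose k : ℝ) := h5.trans h2
      _ = _ := by ring
  exact le_of_mul_le_mul_right h15 hfac

/-! ### The factors `beta` -/

lemma tau_le : ((24 / 49 : ℝ) ^ 3 + (1 - 24 / 49) ^ 3) / ((24 / 49 : ℝ) ^ 2 + (1 - 24 / 49) ^ 2) ^ 2 ≤
    cc ^ 1 := by
  unfold cc; norm_num

lemma tau_nonneg : 0 ≤ ((24 / 49 : ℝ) ^ 3 + (1 - 24 / 49) ^ 3) /
    ((24 / 49 : ℝ) ^ 2 + (1 - 24 / 49) ^ 2) ^ 2 := by norm_num

lemma sig_le : 1 / ((24 / 49 : ℝ) ^ 2 + (1 - 24 / 49) ^ 2) ≤ 2 := by norm_num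

lemma sig_nonneg : 0 ≤ 1 / ((24 / 49 : ℝ) ^ 2 + (1 - 24 / 49) ^ 2) := by norm_num

/-- a common bound for `beta` -/
lemma Par.beta_le (h : Par m n a b y) {j l : ℕ} (hj : j ≤ l) (hl : l ≤ 2 * m) :
    beta (24 / 49) b j ≤ 1 + 80 * cc ^ l / cc ^ (2 * m) * 1 + 3200 * 2 ^ l / (cc ^ m) ^ 4 := by
  have hc := cc_pos
  have hb := h.b_ge
  have hy := h.le_y
  have hb0 : (0 : ℝ) < b := by exact_mod_cast h.b_pos
  have hcm : 0 < cc ^ (2 * m) := pow_pos hc _
  have hbc : cc ^ (2 * m) / 40 ≤ b := by linarith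
  unfold beta
  have e1 : 2 / (b : ℝ) * (((24 / 49 : ℝ) ^ 3 + (1 - 24 / 49) ^ 3) /
      ((24 / 49 : ℝ) ^ 2 + (1 - 24 / 49) ^ 2) ^ 2) ^ j ≤ 80 * cc ^ l / cc ^ (2 * m) * 1 := by
    have h1 : (((24 / 49 : ℝ) ^ 3 + (1 - 24 / 49) ^ 3) /
      ((24 / 49 : ℝ) ^ 2 + (1 - 24 / 49) ^ 2) ^ 2) ^ j ≤ cc ^ l := by
      refine (pow_le_pow_left₀ tau_nonneg tau_le j).trans ?_
      rw [pow_one]
      exact pow_le_pow_right₀ one_le_cc hj
    have h2 : 2 / (b : ℝ) ≤ 80 / cc ^ (2 * m) := by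
      rw [div_le_div_iff₀ hb0 hcm]
      linarith
    have h3 := mul_le_mul h2 h1 (pow_nonneg tau_nonneg j) (by positivity)
    refine h3.trans (le_of_eq ?_)
    ring
  have e2 : (1 / ((24 / 49 : ℝ) ^ 2 + (1 - 24 / 49) ^ 2)) ^ j / ((1 - 24 / 49) * (b : ℝ) ^ 2) ≤
      3200 * 2 ^ l / (cc ^ m) ^ 4 := by
    have h1 : (1 / ((24 / 49 : ℝ) ^ 2 + (1 - 24 / 49) ^ 2)) ^ j ≤ 2 ^ l :=
      (pow_le_pow_left₀ sig_nonneg sig_le j).trans (pow_le_pow_right₀ (by norm_num) hj)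
    have h2 : (cc ^ m) ^ 4 / 3200 ≤ (1 - 24 / 49) * (b : ℝ) ^ 2 := by
      have h3 : (cc ^ (2 * m) / 40) ^ 2 ≤ (b : ℝ) ^ 2 := pow_le_pow_left₀ (by positivity) hbc 2
      have h4 : (cc ^ (2 * m) / 40) ^ 2 = (cc ^ m) ^ 4 / 1600 := by
        rw [cpow]; ring
      rw [h4] at h3
      have h5 : (0 : ℝ) ≤ (cc ^ m) ^ 4 := by positivity
      linarith
    have h6 : (0 : ℝ) < (cc ^ m) ^ 4 / 3200 := by positivity
    calc (1 / ((24 / 49 : ℝ) ^ 2 + (1 - 24 / 49) ^ 2)) ^ j / ((1 - 24 / 49) * (b : ℝ) ^ 2)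
        ≤ 2 ^ l / ((cc ^ m) ^ 4 / 3200) := div_le_div₀ (by positivity) h1 h6 h2
      _ = _ := by field_simp
  linarith

lemma Par.beta_small (h : Par m n a b y) {j : ℕ} (hj : j ≤ m) : beta (24 / 49) b j ≤ 3 := by
  have hc := cc_pos
  have h1 := h.beta_le hj (by omega)
  have hcm := h.cm
  have hcm0 : 0 < cc ^ m := pow_pos hc m
  have e1 : 80 * cc ^ m / cc ^ (2 * m) * 1 ≤ 1 := by
    rw [cpow, mul_one, div_le_one (by positivity)]
    nlinarith
  have e2 : 3200 * 2 ^ m / (cc ^ m) ^ 4 ≤ 1 := by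
    rw [div_le_one (by positivity)]
    have h2 : (2 : ℝ) ^ m ≤ (cc ^ m) ^ 3 := by
      rw [← pow_mul, mul_comm m 3, pow_mul]
      apply pow_le_pow_left₀ (by norm_num)
      unfold cc; norm_num
    have h3 : 0 < (cc ^ m) ^ 3 := by positivity
    calc 3200 * 2 ^ m ≤ 3200 * (cc ^ m) ^ 3 := by linarith
      _ ≤ cc ^ m * (cc ^ m) ^ 3 := mul_le_mul_of_nonneg_right (by linarith) h3.le
      _ = _ := by ring
  linarith

lemma Par.beta_zero (h : Par m n a b y) : beta (24 / 49) b 0 ≤ 31 / 30 := by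
  unfold beta
  have hb := h.b_ge
  have hy := h.y_big
  have hb1 : (400000 : ℝ) ≤ b := by linarith
  rw [pow_zero, pow_zero, mul_one]
  have e1 : 2 / (b : ℝ) ≤ 1 / 100 := by
    rw [div_le_div_iff₀ (by linarith) (by norm_num)]
    linarith
  have e2 : 1 / ((1 - 24 / 49) * (b : ℝ) ^ 2) ≤ 1 / 100 := by
    apply one_div_le_one_div_of_le (by norm_num)
    nlinarith
  linarith

lemma Par.beta_large (h : Par m n a b y) {j : ℕ} (hj : j ≤ 2 * m) :
    beta (24 / 49) b j * 8 * 40 ≤ ((9 / 10 * cc) ^ m) ^ 2 := by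
  have hc := cc_pos
  have hcm := h.cm
  have hb := h.b_ge
  have hy := h.le_y
  have hb0 : (0 : ℝ) < b := by exact_mod_cast h.b_pos
  have hcm0 : 0 < cc ^ (2 * m) := pow_pos hc _
  have hbc : cc ^ (2 * m) / 40 ≤ b := by linarith
  -- a more precise bound for the middle term
  have e1 : 2 / (b : ℝ) * (((24 / 49 : ℝ) ^ 3 + (1 - 24 / 49) ^ 3) /
      ((24 / 49 : ℝ) ^ 2 + (1 - 24 / 49) ^ 2) ^ 2) ^ j ≤ 1 := by
    have h1 : (((24 / 49 : ℝ) ^ 3 + (1 - 24 / 49) ^ 3) /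
      ((24 / 49 : ℝ) ^ 2 + (1 - 24 / 49) ^ 2) ^ 2) ^ j ≤ cc ^ m := by
      have h2 : ((24 / 49 : ℝ) ^ 3 + (1 - 24 / 49) ^ 3) /
        ((24 / 49 : ℝ) ^ 2 + (1 - 24 / 49) ^ 2) ^ 2 ≤ 11 / 10 := by norm_num
      refine (pow_le_pow_left₀ tau_nonneg h2 j).trans ?_
      refine (pow_le_pow_right₀ (by norm_num) hj).trans ?_
      rw [pow_mul]
      apply pow_le_pow_left₀ (by norm_num)
      unfold cc; norm_num
    have h2 : 2 / (b : ℝ) ≤ 80 / cc ^ (2 * m) := by
      rw [div_le_div_iff₀ hb0 hcm0]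
      linarith
    have h3 := mul_le_mul h2 h1 (pow_nonneg tau_nonneg j) (by positivity)
    refine h3.trans ?_
    rw [cpow, div_mul_eq_mul_div, div_le_one (by positivity)]
    have : 0 < cc ^ m := pow_pos hc m
    nlinarith
  have e2 : (1 / ((24 / 49 : ℝ) ^ 2 + (1 - 24 / 49) ^ 2)) ^ j / ((1 - 24 / 49) * (b : ℝ) ^ 2) ≤
      3200 * 4 ^ m / (cc ^ m) ^ 4 := by
    have h1 : (1 / ((24 / 49 : ℝ) ^ 2 + (1 - 24 / 49) ^ 2)) ^ j ≤ 4 ^ m := by
      refine (pow_le_pow_left₀ sig_nonneg sig_le j).trans ?_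
      refine (pow_le_pow_right₀ (by norm_num) hj).trans (le_of_eq ?_)
      rw [pow_mul]; norm_num
    have h2 : (cc ^ m) ^ 4 / 3200 ≤ (1 - 24 / 49) * (b : ℝ) ^ 2 := by
      have h3 : (cc ^ (2 * m) / 40) ^ 2 ≤ (b : ℝ) ^ 2 := pow_le_pow_left₀ (by positivity) hbc 2
      have h4 : (cc ^ (2 * m) / 40) ^ 2 = (cc ^ m) ^ 4 / 1600 := by
        rw [cpow]; ring
      rw [h4] at h3
      have h5 : (0 : ℝ) ≤ (cc ^ m) ^ 4 := by positivity
      linarith
    have h6 : (0 : ℝ) < (cc ^ m) ^ 4 / 3200 := by positivity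
    calc (1 / ((24 / 49 : ℝ) ^ 2 + (1 - 24 / 49) ^ 2)) ^ j / ((1 - 24 / 49) * (b : ℝ) ^ 2)
        ≤ 4 ^ m / ((cc ^ m) ^ 4 / 3200) := div_le_div₀ (by positivity) h1 h6 h2
      _ = _ := by field_simp
  have h5 := h.H5
  unfold beta
  nlinarith

/-! ### The terms of the sum -/

/-- small intersections -/
lemma Par.term_small (h : Par m n a b y) {j : ℕ} (hj1 : 1 ≤ j) (hj : j ≤ m) :
    ((2 * m).choose j : ℝ) * ((a - j).choose (2 * m - j) : ℝ) * cc ^ (j * (j - 1)) *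
      beta (24 / 49) b j ≤ (a.choose (2 * m) : ℝ) * (3 * (1 / 100) ^ j) := by
  have hc := cc_pos
  have hka := h.k_le
  have hm := h.hm
  set k := 2 * m with hk
  have hjk : j ≤ k := by omega
  -- `C(k,j) C(a-j,k-j) ≤ C(a,k) (k² / (a-k))^j`
  have h1 : (a.choose k : ℝ) * (k.choose j : ℝ) = (a.choose j : ℝ) * ((a - j).choose (k - j) : ℝ) := by
    exact_mod_cast Nat.choose_mul (n := a) hjk
  have hjf : (0 : ℝ) < (j.factorial : ℝ) := by exact_mod_cast Nat.factorial_pos j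
  have hak : 0 < (a : ℝ) - k := by
    have := h.a_ge
    have := h.y_big
    rw [hk]; push_cast; linarith
  have h2 : ((a : ℝ) - k) ^ j ≤ (j.factorial : ℝ) * (a.choose j : ℝ) := by
    have h3 : (a + 1 - j) ^ j ≤ a.descFactorial j := Nat.pow_sub_le_descFactorial a j
    rw [Nat.descFactorial_eq_factorial_mul_choose] at h3
    have h4 : (((a + 1 - j : ℕ) : ℝ)) ^ j ≤ (j.factorial : ℝ) * (a.choose j : ℝ) := by
      exact_mod_cast h3
    refine le_trans ?_ h4
    apply pow_le_pow_left₀ hak.le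
    rw [Nat.cast_sub (by omega)]
    push_cast
    have : (j : ℝ) ≤ k := by exact_mod_cast hjk
    linarith
  have h5 : (k.choose j : ℝ) ≤ (k : ℝ) ^ j / (j.factorial : ℝ) := Nat.choose_le_pow_div j k
  have h6 : (k.choose j : ℝ) ≤ (k : ℝ) ^ j := by
    exact_mod_cast Nat.choose_le_pow k j
  have haj : (0 : ℝ) < (a.choose j : ℝ) := by
    exact_mod_cast Nat.choose_pos (hjk.trans hka)
  have h7 : ((a - j).choose (k - j) : ℝ) * ((a : ℝ) - k) ^ j ≤
      (a.choose k : ℝ) * (k : ℝ) ^ j := by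
    have h8 : ((a - j).choose (k - j) : ℝ) * ((a : ℝ) - k) ^ j * (a.choose j : ℝ) ≤
        (a.choose k : ℝ) * (k : ℝ) ^ j * (a.choose j : ℝ) := by
      calc ((a - j).choose (k - j) : ℝ) * ((a : ℝ) - k) ^ j * (a.choose j : ℝ)
          = ((a : ℝ) - k) ^ j * ((a.choose k : ℝ) * (k.choose j : ℝ)) := by rw [h1]; ring
        _ ≤ ((j.factorial : ℝ) * (a.choose j : ℝ)) *
            ((a.choose k : ℝ) * ((k : ℝ) ^ j / (j.factorial : ℝ))) := by
            apply mul_le_mul h2 _ (by positivity) (by positivity)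
            exact mul_le_mul_of_nonneg_left h5 (by positivity)
        _ = _ := by field_simp
    exact le_of_mul_le_mul_right h8 haj
  -- the ratio
  have h9 : (k : ℝ) * k * cc ^ (j - 1) / ((a : ℝ) - k) ≤ 1 / 100 := by
    rw [div_le_iff₀ hak]
    have e1 : cc ^ (j - 1) ≤ cc ^ m := pow_le_pow_right₀ one_le_cc (by omega)
    have e2 := h.a_ge
    have e3 := h.le_y
    rw [cpow] at e3
    have e4 := h.H1
    have e5 : (k : ℝ) = 2 * m := by rw [hk]; push_cast; ring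
    have e6 : 0 < cc ^ m := pow_pos hc m
    rw [e5]
    have e7 : (2 * (m : ℝ)) * (2 * m) * cc ^ (j - 1) ≤ (2 * (m : ℝ)) * (2 * m) * cc ^ m :=
      mul_le_mul_of_nonneg_left e1 (by positivity)
    have e8 : 4000 * (m : ℝ) ^ 2 * cc ^ m ≤ cc ^ m * cc ^ m :=
      mul_le_mul_of_nonneg_right e4 e6.le
    nlinarith
  have h10 : 0 ≤ (k : ℝ) * k * cc ^ (j - 1) / ((a : ℝ) - k) := by positivity
  have h11 := pow_le_pow_left₀ h10 h9 j
  have h12 : ((k : ℝ) * k * cc ^ (j - 1) / ((a : ℝ) - k)) ^ j =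
      (k : ℝ) ^ j * (k : ℝ) ^ j * cc ^ (j * (j - 1)) / ((a : ℝ) - k) ^ j := by
    rw [div_pow, mul_pow, mul_pow, ← pow_mul, mul_comm (j - 1) j]
  have h13 : (k.choose j : ℝ) * ((a - j).choose (k - j) : ℝ) * cc ^ (j * (j - 1)) ≤
      (a.choose k : ℝ) * (1 / 100) ^ j := by
    have hpos : 0 < ((a : ℝ) - k) ^ j := pow_pos hak j
    have h14 : ((a - j).choose (k - j) : ℝ) ≤ (a.choose k : ℝ) * (k : ℝ) ^ j / ((a : ℝ) - k) ^ j := by
      rw [le_div_iff₀ hpos]; exact h7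
    calc (k.choose j : ℝ) * ((a - j).choose (k - j) : ℝ) * cc ^ (j * (j - 1))
        ≤ (k : ℝ) ^ j * ((a.choose k : ℝ) * (k : ℝ) ^ j / ((a : ℝ) - k) ^ j) *
            cc ^ (j * (j - 1)) := by
          apply mul_le_mul_of_nonneg_right _ (by positivity)
          exact mul_le_mul h6 h14 (by positivity) (by positivity)
      _ = (a.choose k : ℝ) * ((k : ℝ) * k * cc ^ (j - 1) / ((a : ℝ) - k)) ^ j := by
          rw [h12]; ring
      _ ≤ (a.choose k : ℝ) * (1 / 100) ^ j := mul_le_mul_of_nonneg_left h11 (by positivity)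
  have h15 := h.beta_small hj
  have h16 : 0 ≤ beta (24 / 49) b j := by
    unfold beta
    have : (0 : ℝ) < b := by exact_mod_cast h.b_pos
    have h17 : (0 : ℝ) ≤ 1 - 24 / 49 := by norm_num
    positivity
  calc (k.choose j : ℝ) * ((a - j).choose (k - j) : ℝ) * cc ^ (j * (j - 1)) *
      beta (24 / 49) b j ≤ ((a.choose k : ℝ) * (1 / 100) ^ j) * 3 :=
        mul_le_mul h13 h15 h16 (by positivity)
    _ = _ := by ring

/-- large intersections -/
lemma Par.term_large (h : Par m n a b y) {i : ℕ} (hi : i < m) :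
    ((2 * m).choose (2 * m - i) : ℝ) * ((a - (2 * m - i)).choose (2 * m - (2 * m - i)) : ℝ) *
      cc ^ ((2 * m - i) * ((2 * m - i) - 1)) * beta (24 / 49) b (2 * m - i) ≤
      (a.choose (2 * m) : ℝ) * (1 / 40 * (1 / 100) ^ i) := by
  have hc := cc_pos
  have hka := h.k_le
  have hm := h.hm
  set k := 2 * m with hk
  have hik : i ≤ k := by omega
  have e0 : k - (k - i) = i := by omega
  have e1 : (k.choose (k - i) : ℝ) ≤ (k : ℝ) ^ i := by
    rw [Nat.choose_symm hik]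
    exact_mod_cast Nat.choose_le_pow k i
  have e2 : ((a - (k - i)).choose i : ℝ) ≤ (a : ℝ) ^ i := by
    have h1 : (a - (k - i)).choose i ≤ a ^ i :=
      (Nat.choose_le_pow _ i).trans (Nat.pow_le_pow_left (by omega) i)
    exact_mod_cast h1
  rw [e0]
  -- exponents
  have e3 : cc ^ ((k - i) * ((k - i) - 1)) * (cc ^ (2 * k - i - 1)) ^ i = cc ^ (k * (k - 1)) := by
    rw [← pow_mul, ← pow_add]
    congr 1
    obtain ⟨l, hl⟩ : ∃ l, k = i + l + 1 := ⟨k - i - 1, by omega⟩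
    rw [hl]
    have f1 : i + l + 1 - i = l + 1 := by omega
    have f2 : l + 1 - 1 = l := by omega
    have f3 : 2 * (i + l + 1) - i - 1 = i + 2 * l + 1 := by omega
    have f4 : i + l + 1 - 1 = i + l := by omega
    rw [f1, f2, f3, f4]
    ring
  have e4 : (k : ℝ) * a / cc ^ (2 * k - i - 1) ≤ 1 / 100 := by
    rw [div_le_iff₀ (pow_pos hc _)]
    have g1 := h.a_le
    have g2 := h.y_le
    have g3 : cc ^ (2 * m) * cc ^ m ≤ cc ^ (2 * k - i - 1) := by
      rw [← pow_add]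
      exact pow_le_pow_right₀ one_le_cc (by omega)
    have g4 := h.H1
    have g5 : (1 : ℝ) ≤ m := by exact_mod_cast hm
    have g6 : 0 < cc ^ (2 * m) := pow_pos hc _
    have g7 : (k : ℝ) = 2 * m := by rw [hk]; push_cast; ring
    have g8 : (k : ℝ) * a ≤ (2 * m) * ((2 * m + 1) * cc ^ (2 * m)) := by
      rw [g7]
      exact mul_le_mul_of_nonneg_left (g1.trans g2) (by positivity)
    have g9 : (2 * (m : ℝ)) * (2 * m + 1) ≤ 1 / 100 * cc ^ m := by nlinarith
    have g10 : (2 * (m : ℝ)) * ((2 * m + 1) * cc ^ (2 * m)) ≤ 1 / 100 * cc ^ m * cc ^ (2 * m) := by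
      have := mul_le_mul_of_nonneg_right g9 g6.le
      linarith
    nlinarith
  have e5 : 0 ≤ (k : ℝ) * a / cc ^ (2 * k - i - 1) := by positivity
  have e6 := pow_le_pow_left₀ e5 e4 i
  have e7 := h.beta_large (j := k - i) (by omega)
  have e8 := h.choose_ge
  rw [← hk] at e8
  have e9 : 0 ≤ beta (24 / 49) b (k - i) := by
    unfold beta
    have : (0 : ℝ) < b := by exact_mod_cast h.b_pos
    have h17 : (0 : ℝ) ≤ 1 - 24 / 49 := by norm_num
    positivity
  have e10 : (0 : ℝ) < cc ^ (k * (k - 1)) := pow_pos hc _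
  -- combine
  have e11 : cc ^ ((k - i) * ((k - i) - 1)) = cc ^ (k * (k - 1)) / (cc ^ (2 * k - i - 1)) ^ i := by
    rw [eq_div_iff (pow_ne_zero _ (pow_pos hc _).ne')]
    exact e3
  have e12 : (k.choose (k - i) : ℝ) * ((a - (k - i)).choose i : ℝ) *
      cc ^ ((k - i) * ((k - i) - 1)) ≤ cc ^ (k * (k - 1)) * (1 / 100) ^ i := by
    calc (k.choose (k - i) : ℝ) * ((a - (k - i)).choose i : ℝ) * cc ^ ((k - i) * ((k - i) - 1))
        ≤ (k : ℝ) ^ i * (a : ℝ) ^ i * cc ^ ((k - i) * ((k - i) - 1)) :=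
          mul_le_mul_of_nonneg_right (mul_le_mul e1 e2 (by positivity) (by positivity))
            (by positivity)
      _ = cc ^ (k * (k - 1)) * ((k : ℝ) * a / cc ^ (2 * k - i - 1)) ^ i := by
          rw [e11, div_pow, mul_pow]; ring
      _ ≤ _ := mul_le_mul_of_nonneg_left e6 e10.le
  calc (k.choose (k - i) : ℝ) * ((a - (k - i)).choose i : ℝ) *
      cc ^ ((k - i) * ((k - i) - 1)) * beta (24 / 49) b (k - i)
      ≤ (cc ^ (k * (k - 1)) * (1 / 100) ^ i) * beta (24 / 49) b (k - i) :=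
        mul_le_mul_of_nonneg_right e12 e9
    _ = (beta (24 / 49) b (k - i) * 8 * 40) * (cc ^ (k * (k - 1)) / 8) *
        (1 / 40 * (1 / 100) ^ i) := by ring
    _ ≤ ((9 / 10 * cc) ^ m) ^ 2 * (cc ^ (k * (k - 1)) / 8) * (1 / 40 * (1 / 100) ^ i) := by
        apply mul_le_mul_of_nonneg_right _ (by positivity)
        exact mul_le_mul_of_nonneg_right e7 (by positivity)
    _ = (((9 / 10 * cc) ^ m) ^ 2 / 8 * cc ^ (k * (k - 1))) * (1 / 40 * (1 / 100) ^ i) := by ring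
    _ ≤ _ := mul_le_mul_of_nonneg_right e8 (by positivity)

lemma geo (N : ℕ) : ∑ j ∈ range N, ((1 : ℝ) / 100) ^ j ≤ 100 / 99 := by
  have h : ∀ N : ℕ, ∑ j ∈ range N, ((1 : ℝ) / 100) ^ j = 100 / 99 * (1 - (1 / 100) ^ N) := by
    intro N
    induction N with
    | zero => simp
    | succ N ih => rw [sum_range_succ, ih, pow_succ]; ring
  rw [h]
  have : (0 : ℝ) ≤ (1 / 100) ^ N := by positivity
  linarith

theorem Par.RR_le (h : Par m n a b y) :
    RR (24 / 49) a b (2 * m) ≤ 11 / 10 * (a.choose (2 * m) : ℝ) := by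
  have hm := h.hm
  have hC : (0 : ℝ) ≤ (a.choose (2 * m) : ℝ) := by positivity
  unfold RR
  have hterm : ∀ j ∈ range (2 * m + 1), ((2 * m).choose j : ℝ) * ((a - j).choose (2 * m - j) : ℝ) *
      (1 / (1 - (24 / 49 : ℝ))) ^ (j.choose 2) * beta (24 / 49) b j ≤
      (a.choose (2 * m) : ℝ) * ((if j = 0 then 31 / 30 else 0) +
        (if j = 0 then 0 else 3 * (1 / 100) ^ j) + 1 / 40 * (1 / 100) ^ (2 * m - j)) := by
    intro j hj
    rw [mem_range] at hj
    rw [q_pow]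
    have hp : (0 : ℝ) ≤ 1 / 40 * (1 / 100) ^ (2 * m - j) := by positivity
    by_cases h0 : j = 0
    · subst h0
      rw [if_pos rfl, if_pos rfl]
      have h1 := h.beta_zero
      simp only [Nat.choose_zero_right, Nat.cast_one, one_mul, Nat.sub_zero, zero_mul, pow_zero,
        mul_one]
      apply mul_le_mul_of_nonneg_left _ hC
      simp only [Nat.sub_zero] at hp
      linarith
    · rw [if_neg h0, if_neg h0]
      by_cases h1 : j ≤ m
      · refine (h.term_small (by omega) h1).trans (mul_le_mul_of_nonneg_left ?_ hC)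
        linarith
      · have h2 := h.term_large (i := 2 * m - j) (by omega)
        have h3 : 2 * m - (2 * m - j) = j := by omega
        rw [h3] at h2
        refine h2.trans (mul_le_mul_of_nonneg_left ?_ hC)
        have : (0 : ℝ) ≤ 3 * (1 / 100) ^ j := by positivity
        linarith
  refine (sum_le_sum hterm).trans ?_
  rw [← mul_sum, mul_comm]
  refine mul_le_mul_of_nonneg_right ?_ hC
  rw [sum_add_distrib, sum_add_distrib]
  have s1 : ∑ j ∈ range (2 * m + 1), (if j = 0 then (31 / 30 : ℝ) else 0) = 31 / 30 := by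
    rw [sum_ite_eq']
    simp
  have s2 : ∑ j ∈ range (2 * m + 1), (if j = 0 then (0 : ℝ) else 3 * (1 / 100) ^ j) ≤ 1 / 33 := by
    rw [sum_range_succ']
    simp only [Nat.add_eq_zero_iff, one_ne_zero, and_false, if_false, if_true, add_zero]
    have h1 : ∀ j ∈ range (2 * m), (3 : ℝ) * (1 / 100) ^ (j + 1) = 3 / 100 * (1 / 100) ^ j := by
      intro j _; rw [pow_succ]; ring
    rw [sum_congr rfl h1, ← mul_sum]
    have := geo (2 * m)
    linarith
  have s3 : ∑ j ∈ range (2 * m + 1), (1 / 40 : ℝ) * (1 / 100) ^ (2 * m - j) ≤ 1 / 39 := by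
    rw [← mul_sum]
    have h1 := sum_range_reflect (fun j => ((1 : ℝ) / 100) ^ j) (2 * m + 1)
    have h2 : ∀ j ∈ range (2 * m + 1), ((1 : ℝ) / 100) ^ (2 * m + 1 - 1 - j) =
        (1 / 100) ^ (2 * m - j) := by
      intro j _; congr 1
    rw [sum_congr rfl h2] at h1
    rw [h1]
    have := geo (2 * m + 1)
    linarith
  rw [s1]
  linarith

theorem Par.first (h : Par m n a b y) :
    (n.choose (2 * m + 1) : ℝ) * (1 - (24 / 49 : ℝ)) ^ ((2 * m + 1).choose 2) ≤ 1 / 8 := by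
  have hc := cc_pos
  have h1 : (n.choose (2 * m + 1) : ℝ) ≤ (n : ℝ) ^ (2 * m + 1) / ((2 * m + 1).factorial : ℝ) :=
    Nat.choose_le_pow_div _ _
  have hf : (0 : ℝ) < ((2 * m + 1).factorial : ℝ) := by exact_mod_cast Nat.factorial_pos _
  have h2 : (n : ℝ) ^ (2 * m + 1) ≤ y ^ (2 * m + 1) :=
    pow_le_pow_left₀ (by positivity) h.hn1 _
  rw [h.hy] at h2
  have h3 : (1 - (24 / 49 : ℝ)) ^ ((2 * m + 1).choose 2) * cc ^ (2 * m * (2 * m + 1)) = 1 := by
    have h4 := q_pow (2 * m + 1)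
    have h5 : (2 * m + 1) * (2 * m + 1 - 1) = 2 * m * (2 * m + 1) := by
      simp only [Nat.add_sub_cancel]; ring
    rw [h5] at h4
    rw [← h4, ← mul_pow]
    norm_num
  have h6 : 0 < (1 - (24 / 49 : ℝ)) ^ ((2 * m + 1).choose 2) := pow_pos (by norm_num) _
  calc (n.choose (2 * m + 1) : ℝ) * (1 - (24 / 49 : ℝ)) ^ ((2 * m + 1).choose 2)
      ≤ (((2 * m + 1).factorial : ℝ) * cc ^ (2 * m * (2 * m + 1)) / 8 /
          ((2 * m + 1).factorial : ℝ)) * (1 - (24 / 49 : ℝ)) ^ ((2 * m + 1).choose 2) := by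
        apply mul_le_mul_of_nonneg_right _ h6.le
        exact h1.trans (div_le_div_of_nonneg_right h2 hf.le)
    _ = ((1 - (24 / 49 : ℝ)) ^ ((2 * m + 1).choose 2) * cc ^ (2 * m * (2 * m + 1))) / 8 := by
        field_simp
    _ ≤ 1 / 8 := by rw [h3]

end par

/-- For infinitely many `n` the event has probability at most `1/4`. -/
theorem main_prob (N : ℕ) : ∃ n : ℕ, N ≤ n ∧
    gnp n (24 / 49) (fun G => sInf {k : ℕ | BicPart G k} = n - Gᶜ.cliqueNum) ≤ 1 / 4 := by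
  classical
  obtain ⟨m, n, a, b, y, hN, h⟩ := exists_par N
  refine ⟨n, hN, ?_⟩
  have hab : a + 2 * b = n := by rw [h.ha, h.hb]; omega
  -- the three sets
  let A : Finset (Fin n) := univ.filter fun x => x.val < a
  let B1 : Finset (Fin n) := univ.filter fun x => a ≤ x.val ∧ x.val < a + b
  let B2 : Finset (Fin n) := univ.filter fun x => a + b ≤ x.val
  have hcard : ∀ l u : ℕ, u ≤ n → l ≤ u →
      (univ.filter fun x : Fin n => l ≤ x.val ∧ x.val < u).card = u - l := by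
    intro l u hu hl
    have h1 : ((univ.filter fun x : Fin n => l ≤ x.val ∧ x.val < u).map Fin.valEmbedding) =
        Finset.Ico l u := by
      ext z
      simp only [Finset.mem_map, Finset.mem_filter, Finset.mem_univ, true_and,
        Fin.valEmbedding_apply, Finset.mem_Ico]
      constructor
      · rintro ⟨x, hx, rfl⟩; exact hx
      · intro hz; exact ⟨⟨z, by omega⟩, hz, rfl⟩
    rw [← card_map Fin.valEmbedding, h1, Nat.card_Ico]
  have cA : A.card = a := by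
    have h1 := hcard 0 a (by omega) (by omega)
    have h2 : A = univ.filter fun x : Fin n => 0 ≤ x.val ∧ x.val < a := by
      apply filter_congr; intro x _; simp
    rw [h2, h1]; omega
  have c1 : B1.card = b := by
    have h1 := hcard a (a + b) (by omega) (by omega)
    change (univ.filter fun x : Fin n => a ≤ x.val ∧ x.val < a + b).card = b
    rw [h1]; omega
  have c2 : B2.card = b := by
    have h1 := hcard (a + b) n (by omega) (by omega)
    have h2 : B2 = univ.filter fun x : Fin n => a + b ≤ x.val ∧ x.val < n := by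
      apply filter_congr; intro x _; simp
    rw [h2, h1]; omega
  have hP : Parts A B1 B2 := by
    refine ⟨?_, ?_, ?_⟩ <;>
    · rw [Finset.disjoint_left]
      intro x h1 h2
      simp only [A, B1, B2, mem_filter, mem_univ, true_and] at h1 h2
      omega
  have h0 : (0 : ℝ) < 24 / 49 := by norm_num
  have h1 : (24 / 49 : ℝ) < 1 := by norm_num
  have hs := prob_struct h0 h1 hP c1 c2 h.b_pos (k := 2 * m) (by rw [cA]; exact h.k_le)
  rw [cA] at hs
  have hR := h.RR_le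
  have hC : (0 : ℝ) < (a.choose (2 * m) : ℝ) := by exact_mod_cast Nat.choose_pos h.k_le
  have hg0 := gnp_nonneg (n := n) h0.le h1.le (fun G => Struct G (2 * m))
  have hst : 10 / 11 ≤ gnp n (24 / 49) (fun G => Struct G (2 * m)) := by
    have h2 := hs.trans (mul_le_mul_of_nonneg_left hR hg0)
    have h3 : (1 : ℝ) * (a.choose (2 * m) : ℝ) ≤
        (gnp n (24 / 49) (fun G => Struct G (2 * m)) * (11 / 10)) * (a.choose (2 * m) : ℝ) := by
      linarith
    have h4 := le_of_mul_le_mul_right h3 hC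
    linarith
  have hnst : gnp n (24 / 49) (fun G => ¬ Struct G (2 * m)) ≤ 1 / 11 := by
    have := gnp_add_not (n := n) (p := 24 / 49) (fun G => Struct G (2 * m))
    linarith
  have hind := (prob_indep (n := n) h0 h1 (2 * m + 1)).trans h.first
  -- the event is contained in the union
  have hmono : gnp n (24 / 49) (fun G => sInf {k : ℕ | BicPart G k} = n - Gᶜ.cliqueNum) ≤
      gnp n (24 / 49) (fun G => ¬ Struct G (2 * m) ∨
        ∃ S : Finset (Fin n), S.card = 2 * m + 1 ∧ ∀ x ∈ S, ∀ y ∈ S, ¬ G.Adj x y) := by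
    apply gnp_mono h0.le h1.le
    intro G hG
    by_contra hcon
    push Not at hcon
    obtain ⟨hS, hI⟩ := hcon
    refine sInf_ne hS ?_ hG
    intro S hSi
    by_contra hlt
    push Not at hlt
    obtain ⟨S', hS', hc'⟩ := Finset.exists_subset_card_eq (s := S) (n := 2 * m + 1) (by omega)
    obtain ⟨x, hx, y, hy, hxy⟩ := hI S' hc'
    exact hSi x (hS' hx) y (hS' hy) hxy
  have hor := gnp_or_le (n := n) h0.le h1.le (fun G => ¬ Struct G (2 * m))
    (fun G => ∃ S : Finset (Fin n), S.card = 2 * m + 1 ∧ ∀ x ∈ S, ∀ y ∈ S, ¬ G.Adj x y)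
  have := hmono.trans hor
  linarith

end Pool.Agent.N414.BP
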